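import Mathlib

/-!
# Some inequalities
-/

set_option autoImplicit false

open scoped BigOperators

noncomputable section

namespace Pool.Agent.N22.DD

theorem le_of_powers {a b c : ℝ} (hb : 0 < b)
    (h : ∀ k : ℕ, a ^ (2 ^ k) ≤ c * b ^ (2 ^ k)) : a ≤ b := by
  by_contra hlt
  push Not at hlt
  have h1 : 1 < a / b := by rwa [one_lt_div hb]
  have h2 : ∀ k : ℕ, (a / b) ^ (2 ^ k) ≤ c := by
    intro k
    rw [div_pow, div_le_iff₀ (pow_pos hb _)]
    exact h k
  obtain ⟨n, hn⟩ := pow_unbounded_of_one_lt c h1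
  have h3 : (a / b) ^ n ≤ (a / b) ^ (2 ^ n) := pow_le_pow_right₀ h1.le (Nat.lt_two_pow_self).le
  linarith [h2 n]

theorem le_one_of_rpow {a g : ℝ} (hg : 0 < g) (h : ∀ ε : ℝ, 0 < ε → a ≤ g ^ ε) : a ≤ 1 := by
  have h1 : Filter.Tendsto (fun ε : ℝ => g ^ ε) (nhdsWithin 0 (Set.Ioi 0)) (nhds 1) := by
    have h2 := (Real.continuous_const_rpow hg.ne').tendsto 0
    rw [Real.rpow_zero] at h2
    exact h2.mono_left nhdsWithin_le_nhds
  refine ge_of_tendsto h1 ?_
  filter_upwards [self_mem_nhdsWithin] with ε hε using h ε hε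

/-- the strict inequality -/
theorem norm_lt_one {u v : ℂ} (hv : ‖v‖ ≤ 1) (h1 : ‖v ^ 2 + 3 * u‖ ≤ 2)
    (h2 : ‖v ^ 4 + 3 * u ^ 2‖ ≤ 2) : ‖u‖ < 1 := by
  have h3 : ‖3 * u‖ ≤ 3 := by
    have h4 : 3 * u = (v ^ 2 + 3 * u) - v ^ 2 := by ring
    rw [h4]
    refine (norm_sub_le _ _).trans ?_
    rw [norm_pow]
    have : ‖v‖ ^ 2 ≤ 1 := pow_le_one₀ (norm_nonneg _) hv
    linarith
  have h5 : ‖u‖ ≤ 1 := by
    rw [norm_mul] at h3
    have : ‖(3 : ℂ)‖ = 3 := by simp
    rw [this] at h3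
    linarith
  refine lt_of_le_of_ne h5 fun hu => ?_
  -- the general computation
  have key : ∀ x y : ℂ, ‖x‖ = 1 → ‖y‖ ≤ 1 → ‖y + 3 * x‖ ≤ 2 → y = -x := by
    intro x y hx hy hxy
    have e1 : ‖y + x‖ = 0 := by
      have e2 : Complex.normSq (y + 3 * x) ≤ 4 := by
        rw [Complex.normSq_eq_norm_sq]
        nlinarith [norm_nonneg (y + 3 * x)]
      have e3 : Complex.normSq x = 1 := by rw [Complex.normSq_eq_norm_sq, hx]; norm_num
      have e4 : Complex.normSq y ≤ 1 := by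
        rw [Complex.normSq_eq_norm_sq]
        nlinarith [norm_nonneg y]
      rw [norm_eq_zero, ← Complex.normSq_eq_zero]
      have e5 : Complex.normSq (y + x) = Complex.normSq y + Complex.normSq x +
          2 * (y.re * x.re + y.im * x.im) := by
        simp only [Complex.normSq_apply, Complex.add_re, Complex.add_im]
        ring
      have e6 : Complex.normSq (y + 3 * x) = Complex.normSq y + 9 * Complex.normSq x +
          6 * (y.re * x.re + y.im * x.im) := by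
        simp only [Complex.normSq_apply, Complex.add_re, Complex.add_im, Complex.mul_re,
          Complex.mul_im, Complex.re_ofNat, Complex.im_ofNat]
        ring
      have e7 := Complex.normSq_nonneg (y + x)
      have e8 : Complex.normSq (y + x) ≤ 0 := by
        rw [e5, e3]
        rw [e6, e3] at e2
        linarith
      linarith
    rw [norm_eq_zero] at e1
    linear_combination e1
  have k1 := key u (v ^ 2) hu (by rw [norm_pow]; exact pow_le_one₀ (norm_nonneg _) hv) h1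
  have k2 := key (u ^ 2) (v ^ 4) (by rw [norm_pow, hu, one_pow])
    (by rw [norm_pow]; exact pow_le_one₀ (norm_nonneg _) hv) h2
  have k3 : u ^ 2 = 0 := by
    have k4 : v ^ 4 = u ^ 2 := by
      calc v ^ 4 = (v ^ 2) ^ 2 := by ring
        _ = u ^ 2 := by rw [k1]; ring
    rw [k4] at k2
    linear_combination k2 / 2
  rw [pow_eq_zero_iff two_ne_zero] at k3
  rw [k3, norm_zero] at hu
  exact zero_ne_one hu

/-- the sum of the values of a character of a cyclic group -/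
theorem sum_root {N : ℕ} {w : ℂ} (hw : w ^ N = 1) (h1 : w ≠ 1) :
    ∑ k ∈ Finset.range N, w ^ k = 0 := by
  rw [geom_sum_eq h1, hw, sub_self, zero_div]

/-- Parseval's identity for a polynomial on the roots of unity of order `N` -/
theorem parseval (a : ℕ → ℤ) {N : ℕ} (hN : 0 < N) :
    ∃ z : ℂ, ‖z‖ = 1 ∧ ((∑ d ∈ Finset.range N, a d ^ 2 : ℤ) : ℝ) ≤
      ‖∑ d ∈ Finset.range N, (a d : ℂ) * z ^ d‖ ^ 2 := by
  obtain ⟨ζ, hζ⟩ : ∃ ζ : ℂ, IsPrimitiveRoot ζ N := ⟨_, Complex.isPrimitiveRoot_exp N hN.ne'⟩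
  have hζn : ‖ζ‖ = 1 := hζ.norm'_eq_one hN.ne'
  have hζ0 : ζ ≠ 0 := by
    intro h
    rw [h, norm_zero] at hζn
    exact zero_ne_one hζn
  have hconj : (starRingEnd ℂ) ζ = ζ⁻¹ := by
    rw [Complex.inv_def, Complex.normSq_eq_norm_sq, hζn]
    simp
  have h1 : ∑ k ∈ Finset.range N, ((‖∑ d ∈ Finset.range N, (a d : ℂ) * (ζ ^ k) ^ d‖ ^ 2 : ℝ) : ℂ) =
      (N : ℂ) * ((∑ d ∈ Finset.range N, a d ^ 2 : ℤ) : ℂ) := by
    have h2 : ∀ k : ℕ, ((‖∑ d ∈ Finset.range N, (a d : ℂ) * (ζ ^ k) ^ d‖ ^ 2 : ℝ) : ℂ) =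
        ∑ d ∈ Finset.range N, ∑ e ∈ Finset.range N, (a d : ℂ) * (a e : ℂ) *
          (ζ ^ d * (ζ⁻¹) ^ e) ^ k := by
      intro k
      rw [← Complex.normSq_eq_norm_sq, Complex.normSq_eq_conj_mul_self, mul_comm, map_sum,
        Finset.sum_mul_sum]
      refine Finset.sum_congr rfl fun d _ => Finset.sum_congr rfl fun e _ => ?_
      rw [map_mul, map_pow, map_pow, hconj]
      have : (starRingEnd ℂ) (a e : ℂ) = (a e : ℂ) := map_intCast _ _
      rw [this, mul_pow, ← pow_mul, ← pow_mul, ← pow_mul, ← pow_mul, mul_comm k d, mul_comm k e]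
      ring
    simp_rw [h2]
    rw [Finset.sum_comm]
    push_cast
    rw [Finset.mul_sum]
    refine Finset.sum_congr rfl fun d hd => ?_
    rw [Finset.sum_comm]
    have h3 : ∀ e ∈ Finset.range N, ∑ k ∈ Finset.range N, (a d : ℂ) * (a e : ℂ) *
        (ζ ^ d * (ζ⁻¹) ^ e) ^ k = if e = d then (N : ℂ) * (a d : ℂ) ^ 2 else 0 := by
      intro e he
      rw [← Finset.mul_sum]
      by_cases hed : e = d
      · subst hed
        rw [if_pos rfl]
        have : ζ ^ e * (ζ⁻¹) ^ e = 1 := by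
          rw [← mul_pow, mul_inv_cancel₀ hζ0, one_pow]
        rw [this]
        simp only [one_pow, Finset.sum_const, Finset.card_range, nsmul_eq_mul, mul_one]
        ring
      · rw [if_neg hed, sum_root, mul_zero]
        · rw [mul_pow, ← pow_mul, ← pow_mul, mul_comm d N, mul_comm e N, pow_mul, pow_mul,
            inv_pow, hζ.pow_eq_one]
          simp
        · intro h4
          rw [inv_pow, mul_inv_eq_one₀ (pow_ne_zero _ hζ0)] at h4
          exact hed (hζ.pow_inj (Finset.mem_range.mp he) (Finset.mem_range.mp hd) h4.symm)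
    rw [Finset.sum_congr rfl h3, Finset.sum_ite_eq' (Finset.range N) d, if_pos hd]
  have h2 : ∑ k ∈ Finset.range N, ‖∑ d ∈ Finset.range N, (a d : ℂ) * (ζ ^ k) ^ d‖ ^ 2 =
      (N : ℝ) * ((∑ d ∈ Finset.range N, a d ^ 2 : ℤ) : ℝ) := by
    have h3 := h1
    exact_mod_cast h3
  by_contra hcon
  push Not at hcon
  have h3 : ∑ k ∈ Finset.range N, ‖∑ d ∈ Finset.range N, (a d : ℂ) * (ζ ^ k) ^ d‖ ^ 2 <
      ∑ _k ∈ Finset.range N, ((∑ d ∈ Finset.range N, a d ^ 2 : ℤ) : ℝ) := by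
    refine Finset.sum_lt_sum_of_nonempty ⟨0, Finset.mem_range.mpr hN⟩ fun k _ => ?_
    exact hcon (ζ ^ k) (by rw [norm_pow, hζn, one_pow])
  rw [h2, Finset.sum_const, Finset.card_range, nsmul_eq_mul] at h3
  exact lt_irrefl _ h3

/-- the exponent of `p` in `n` is smaller than small powers of `n` -/
theorem fac_bound {ε : ℝ} (hε : 0 < ε) : ∃ c : ℝ, 0 < c ∧ ∀ (p n : ℕ), 2 ≤ p → 0 < n →
    ((n.factorization p + 1 : ℕ) : ℝ) ≤ c * (n : ℝ) ^ ε := by
  have hl : 0 < Real.log 2 := Real.log_pos (by norm_num)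
  refine ⟨1 + 1 / (ε * Real.log 2), by positivity, fun p n hp hn => ?_⟩
  have hn1 : (1 : ℝ) ≤ n := by exact_mod_cast hn
  have h1 : (1 : ℝ) ≤ (n : ℝ) ^ ε := Real.one_le_rpow hn1 hε.le
  have h2 : (2 : ℝ) ^ (n.factorization p) ≤ n := by
    have h3 : 2 ^ (n.factorization p) ≤ n :=
      (Nat.pow_le_pow_left hp _).trans (Nat.le_of_dvd hn (Nat.ordProj_dvd n p))
    exact_mod_cast h3
  have h3 : (n.factorization p : ℝ) * Real.log 2 ≤ Real.log n := by
    rw [← Real.log_pow]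
    exact Real.log_le_log (by positivity) h2
  have h4 : Real.log n ≤ (n : ℝ) ^ ε / ε := Real.log_le_rpow_div (by positivity) hε
  have h5 : (n.factorization p : ℝ) ≤ (n : ℝ) ^ ε / ε / Real.log 2 := by
    rw [le_div_iff₀ hl]
    linarith
  have h6 : (n : ℝ) ^ ε / ε / Real.log 2 = 1 / (ε * Real.log 2) * (n : ℝ) ^ ε := by
    field_simp
  push_cast
  rw [h6] at h5
  linarith

end Pool.Agent.N22.DD
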