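import Pool.Agent.N22.DD.Cfp
import Pool.Agent.Q90.WR.Bcl

/-!
# Blocks of direct products
-/

set_option autoImplicit false
set_option linter.unusedSectionVars false

open scoped BigOperators Classical

noncomputable section

namespace Pool.Agent.N22.DD

open Pool.Agent.Y63.KR Pool.Agent.Q90.WR Pool.Agent.Q259.BW Pool.Agent.H254R3.IN Polynomial

/-! ### class sums -/

section sums

theorem isConj_prod {G G' : Type} [Group G] [Group G'] {a c : G} {b d : G'} :
    IsConj (a, b) (c, d) ↔ IsConj a c ∧ IsConj b d := by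
  rw [isConj_iff, isConj_iff, isConj_iff]
  constructor
  · rintro ⟨⟨u, v⟩, h⟩
    exact ⟨⟨u, congrArg Prod.fst h⟩, ⟨v, congrArg Prod.snd h⟩⟩
  · rintro ⟨⟨u, h⟩, ⟨v, h'⟩⟩
    exact ⟨(u, v), Prod.ext h h'⟩

variable {K K' G G' : Type} [Group K] [Fintype K] [Group K'] [Fintype K'] [Group G] [Group G']

theorem L_box {π : K → G} {π' : K' → G'} {ψ : K → ℂ} {ψ' : K' → ℂ} (h1 : ψ 1 ≠ 0)
    (h2 : ψ' 1 ≠ 0) (a : G) (b : G') :
    L (Prod.map π π') (box ψ ψ') (a, b) = L π ψ a * L π' ψ' b := by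
  have e1 : L (Prod.map π π') (box ψ ψ') (a, b) =
      (∑ c : K × K', if IsConj (a, b) (Prod.map π π' c) then box ψ ψ' c else 0) /
        (ψ 1 * ψ' 1) := rfl
  rw [e1, Fintype.sum_prod_type]
  have e3 : ∀ c : K, ∀ d : K', (if IsConj (a, b) (Prod.map π π' (c, d)) then box ψ ψ' (c, d)
      else 0) = (if IsConj a (π c) then ψ c else 0) * (if IsConj b (π' d) then ψ' d else 0) := by
    intro c d
    have h3 : IsConj (a, b) (Prod.map π π' (c, d)) ↔ IsConj a (π c) ∧ IsConj b (π' d) :=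
      isConj_prod
    unfold box
    by_cases h1 : IsConj a (π c)
    · by_cases h2 : IsConj b (π' d)
      · rw [if_pos (h3.mpr ⟨h1, h2⟩), if_pos h1, if_pos h2]
      · rw [if_neg (fun h => h2 (h3.mp h).2), if_neg h2, mul_zero]
    · rw [if_neg (fun h => h1 (h3.mp h).1), if_neg h1, zero_mul]
  simp_rw [e3]
  rw [← Finset.sum_mul_sum, sum_L h1, sum_L h2, div_eq_iff (mul_ne_zero h1 h2)]
  ring

end sums

section blocks

variable {G G' : Type} [Group G] [Fintype G] [Group G'] [Fintype G'] {O : ValuationSubring ℂ}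
  {B : Set (G → ℂ)} {B' : Set (G' → ℂ)}

theorem omega_box {χ : G → ℂ} {χ' : G' → ℂ} (h : IsIrr χ) (h' : IsIrr χ') (a : G) (b : G') :
    omega (box χ χ') (a, b) = omega χ a * omega χ' b := by
  rw [omega_eq_L (box_irr h h'), omega_eq_L h, omega_eq_L h', ← L_box h.one_ne h'.one_ne]
  rfl

theorem bxS_irr {A : Set (G → ℂ)} {A' : Set (G' → ℂ)} (hA : ∀ θ ∈ A, IsIrr θ)
    (hA' : ∀ θ ∈ A', IsIrr θ) : ∀ χ ∈ bxS A A', IsIrr χ := by
  rintro _ ⟨θ, h1, ψ, h2, rfl⟩
  exact box_irr (hA _ h1) (hA' _ h2)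

/-- The block of the direct product. -/
theorem box_block (hB : IsBlock O B) (hB' : IsBlock O B') : IsBlock O (bxS B B') := by
  obtain ⟨χ₀, h0⟩ := hB.nonempty
  obtain ⟨ψ₀, h0'⟩ := hB'.nonempty
  have i0 := hB.irr _ h0
  have i0' := hB'.irr _ h0'
  refine ⟨box χ₀ ψ₀, box_irr i0 i0', Set.Subset.antisymm ?_ ?_⟩
  · rintro _ ⟨θ, h1, ψ, h2, rfl⟩
    have i1 := hB.irr _ h1
    have i2 := hB'.irr _ h2
    refine ⟨box_irr i1 i2, ?_⟩
    rintro ⟨a, b⟩
    rw [← red_eq_iff (IsIrr.omega_mem (box_irr i1 i2) O (a, b)) (IsIrr.omega_mem (box_irr i0 i0') O (a, b)),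
      omega_box i1 i2, omega_box i0 i0', red_mul (i1.omega_mem O a) (i2.omega_mem O b),
      red_mul (i0.omega_mem O a) (i0'.omega_mem O b), hB.red_eq h1 h0, hB'.red_eq h2 h0']
  · rintro χ ⟨hχ, hx⟩
    obtain ⟨θ, ψ, i1, i2, rfl⟩ := box_cover hχ
    have hr : ∀ (a : G) (b : G'), red O (omega θ a) * red O (omega ψ b) =
        red O (omega χ₀ a) * red O (omega ψ₀ b) := by
      intro a b
      rw [← red_mul (IsIrr.omega_mem i1 O a) (IsIrr.omega_mem i2 O b),
        ← red_mul (i0.omega_mem O a) (i0'.omega_mem O b), ← omega_box i1 i2, ← omega_box i0 i0']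
      exact (red_eq_iff (IsIrr.omega_mem (box_irr i1 i2) O (a, b))
        (IsIrr.omega_mem (box_irr i0 i0') O (a, b))).mpr (hx (a, b))
    refine ⟨θ, ?_, ψ, ?_, rfl⟩
    · by_contra hn
      obtain ⟨x, hx⟩ := hB.exists_ne h0 i1 hn
      have h1 := hr x 1
      rw [omega_one i2, omega_one i0', red_one, mul_one, mul_one] at h1
      exact hx h1.symm
    · by_contra hn
      obtain ⟨x, hx⟩ := hB'.exists_ne h0' i2 hn
      have h1 := hr 1 x
      rw [omega_one i1, omega_one i0, red_one, one_mul, one_mul] at h1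
      exact hx h1.symm

variable {K K' : Type} [Group K] [Fintype K] [Group K'] [Fintype K']

/-- **induction of blocks for products of subgroups** -/
theorem IndS_box (hB : IsBlock O B) (hB' : IsBlock O B') (π : K →* G) (π' : K' →* G')
    (hπ : Function.Injective π) (hπ' : Function.Injective π') :
    IndS O (bxS B B') (Prod.map π π') = bxS (IndS O B π) (IndS O B' π') := by
  obtain ⟨χ₀, h0⟩ := hB.nonempty
  obtain ⟨ψ₀, h0'⟩ := hB'.nonempty
  have i0 := hB.irr _ h0
  have i0' := hB'.irr _ h0'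
  have hW := box_block hB hB'
  have hX0 : box χ₀ ψ₀ ∈ bxS B B' := ⟨χ₀, h0, ψ₀, h0', rfl⟩
  ext χ
  rw [mem_IndS hW hX0]
  constructor
  · rintro ⟨h1, h3⟩
    obtain ⟨θ, ψ, i1, i2, rfl⟩ := box_cover h1
    have n1 : θ 1 ≠ 0 := IsIrr.one_ne i1
    have n2 : ψ 1 ≠ 0 := IsIrr.one_ne i2
    have hr : ∀ (a : G) (b : G'), red O (L π θ a) * red O (L π' ψ b) =
        red O (omega χ₀ a) * red O (omega ψ₀ b) := by
      intro a b
      rw [← red_mul (L_mem i1 O a) (L_mem i2 O b),
        ← red_mul (i0.omega_mem O a) (i0'.omega_mem O b), ← L_box n1 n2, ← omega_box i0 i0']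
      exact (h3 (a, b)).2
    refine ⟨θ, (mem_IndS hB h0 _ _).mpr ⟨i1, fun a => ⟨L_mem i1 O a, ?_⟩⟩, ψ,
      (mem_IndS hB' h0' _ _).mpr ⟨i2, fun a => ⟨L_mem i2 O a, ?_⟩⟩, rfl⟩
    · have h4 := hr a 1
      rwa [L_at_one hπ' n2, omega_one i0', red_one, mul_one, mul_one] at h4
    · have h4 := hr 1 a
      rwa [L_at_one hπ n1, omega_one i0, red_one, one_mul, one_mul] at h4
  · rintro ⟨θ, h1, ψ, h3, rfl⟩
    rw [mem_IndS hB h0] at h1
    rw [mem_IndS hB' h0'] at h3
    obtain ⟨i1, e1⟩ := h1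
    obtain ⟨i2, e2⟩ := h3
    refine ⟨box_irr i1 i2, ?_⟩
    rintro ⟨a, b⟩
    have h5 : L (⇑(π.prodMap π')) (box θ ψ) (a, b) ∈ O := L_mem (π := π.prodMap π') (box_irr i1 i2) O (a, b)
    refine ⟨h5, ?_⟩
    rw [L_box (IsIrr.one_ne i1) (IsIrr.one_ne i2), red_mul (e1 a).1 (e2 b).1, (e1 a).2, (e2 b).2,
      omega_box i0 i0', red_mul (i0.omega_mem O a) (i0'.omega_mem O b)]

end blocks

section recursion

variable {G G' : Type} [Group G] [Fintype G] [Group G'] [Fintype G'] {p : ℕ} [hp : Fact p.Prime]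
  {O : ValuationSubring ℂ} {B : Set (G → ℂ)} {B' : Set (G' → ℂ)}

theorem bw_prod (hB : IsBlock O B) (hB' : IsBlock O B') (H : Subgroup G) (H' : Subgroup G') :
    bw p O (bxS B B') (H.prod H') = bw p O B H * bw p O B' H' := by
  have := Fintype.ofFinite H
  have := Fintype.ofFinite H'
  unfold bw
  rw [← apoly_box IndS_irr IndS_irr]
  refine apoly_congr (Subgroup.prodEquiv H H') _ _ fun θ => ?_
  have h := IndS_box hB hB' H.subtype H'.subtype (Subgroup.subtype_injective H)
    (Subgroup.subtype_injective H')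
  have h3 : bxS (IndS O B (Subtype.val : H → G)) (IndS O B' (Subtype.val : H' → G')) =
    IndS O (bxS B B') (Prod.map (Subtype.val : H → G) (Subtype.val : H' → G')) := h.symm
  rw [h3]
  refine IndS_congr (Subgroup.prodEquiv H H') (fun c => ?_) θ
  exact IsConj.refl _

/-- the sums over all chains of a direct product -/
theorem wsumS_prod {R : Type} [CommRing R] (f : Subgroup G → R) (f' : Subgroup G' → R)
    (F : Subgroup (G × G') → R)
    (hprod : ∀ (H : Subgroup G) (K : Subgroup G'), F (H.prod K) = f H * f' K) :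
    wsumS p F = wsumS p f * wsumS p f' := by
  unfold wsumS
  rw [functional_prod (fun H : Subgroup (G × G') => (Nat.card H : R) * F H), Finset.sum_mul_sum]
  refine Finset.sum_congr rfl fun σ _ => Finset.sum_congr rfl fun τ _ => ?_
  rw [hprod, Nat.card_congr (Subgroup.prodEquiv _ _).toEquiv, Nat.card_prod]
  push_cast
  ring

/-- **the generating functions of Dade's alternating sums are multiplicative** -/
theorem blkP_prod (hB : IsBlock O B) (hB' : IsBlock O B') :
    blkP p O (bxS B B') = blkP p O B * blkP p O B' := by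
  unfold blkP
  rw [wsumS_prod (p := p) (bw p O B) (bw p O B') (bw p O (bxS B B')) (bw_prod hB hB'),
    Nat.card_prod]
  simp only [smul_eq_C_mul]
  rw [show (((Nat.card G * Nat.card G' : ℕ) : ℚ)⁻¹) = (Nat.card G : ℚ)⁻¹ * (Nat.card G' : ℚ)⁻¹ by
    push_cast; rw [mul_inv], C_mul]
  ring

/-! ### defect groups -/

theorem coeff_box (hB : ∀ θ ∈ B, IsIrr θ) (hB' : ∀ θ ∈ B', IsIrr θ) (a : G) (b : G') :
    blockCoeff (bxS B B') (a, b) = blockCoeff B a * blockCoeff B' b := by
  have hi := bxS_irr hB hB'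
  have h : blockCoeff (bxS B B') = box (blockCoeff B) (blockCoeff B') := by
    apply eq_of_Om (blockCoeff_cl hi)
    · rintro ⟨a, b⟩ ⟨c, d⟩
      have h1 := blockCoeff_cl hB a c
      have h2 := blockCoeff_cl hB' b d
      change blockCoeff B (c * a * c⁻¹) * blockCoeff B' (d * b * d⁻¹) = _
      rw [h1, h2]
      rfl
    · intro χ hχ
      rw [Om_blockCoeff hi hχ]
      obtain ⟨θ, ψ, i1, i2, rfl⟩ := box_cover hχ
      have e1 : Om (box (blockCoeff B) (blockCoeff B')) (box θ ψ) =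
          Om (blockCoeff B) θ * Om (blockCoeff B') ψ := by
        unfold Om
        rw [Fintype.sum_prod_type]
        have e2 : ∀ (x : G) (y : G'), box (blockCoeff B) (blockCoeff B') (x, y) * box θ ψ (x, y) =
            (blockCoeff B x * θ x) * (blockCoeff B' y * ψ y) := by
          intro x y
          simp only [box]
          ring
        simp_rw [e2]
        rw [← Finset.sum_mul_sum]
        change _ / (θ 1 * ψ 1) = _
        rw [div_mul_div_comm]
      rw [e1, Om_blockCoeff hB i1, Om_blockCoeff hB' i2]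
      have h3 : box θ ψ ∈ bxS B B' ↔ θ ∈ B ∧ ψ ∈ B' := by
        constructor
        · rintro ⟨θ', h1, ψ', h2, h⟩
          obtain ⟨e3, e4⟩ := box_inj i1 i2 (hB _ h1) (hB' _ h2) h
          rw [e3, e4]
          exact ⟨h1, h2⟩
        · rintro ⟨h1, h2⟩
          exact ⟨θ, h1, ψ, h2, rfl⟩
      by_cases c1 : θ ∈ B
      · by_cases c2 : ψ ∈ B'
        · rw [if_pos c1, if_pos c2, if_pos (h3.mpr ⟨c1, c2⟩), mul_one]
        · rw [if_pos c1, if_neg c2, if_neg (fun h => c2 (h3.mp h).2), mul_zero]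
      · rw [if_neg c1, if_neg (fun h => c1 (h3.mp h).1), zero_mul]
  rw [h]
  rfl

theorem centralizer_prod (x : G) (y : G') :
    Subgroup.centralizer ({(x, y)} : Set (G × G')) =
      (Subgroup.centralizer ({x} : Set G)).prod (Subgroup.centralizer ({y} : Set G')) := by
  ext ⟨a, b⟩
  rw [Subgroup.mem_prod, Subgroup.mem_centralizer_singleton_iff,
    Subgroup.mem_centralizer_singleton_iff, Subgroup.mem_centralizer_singleton_iff]
  simp only [Prod.mk_mul_mk, Prod.mk.injEq]

theorem box_defect {D : Subgroup G} {D' : Subgroup G'} (hB : IsBlock O B)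
    (hB' : IsBlock O B') (hD : IsDefectGroup p O B D) (hD' : IsDefectGroup p O B' D') :
    IsDefectGroup p O (bxS B B') (D.prod D') := by
  rw [isDefectGroup_iff] at hD hD' ⊢
  obtain ⟨x, h1, h2, h3, h4, h5⟩ := hD
  obtain ⟨y, k1, k2, k3, k4, k5⟩ := hD'
  refine ⟨(x, y), ?_, isPGroup_prod h2 k2, ?_, ?_, ?_⟩
  · rw [centralizer_prod]
    exact Subgroup.prod_mono h1 k1
  · have hle : D.prod D' ≤ Subgroup.centralizer ({(x, y)} : Set (G × G')) := by
      rw [centralizer_prod]
      exact Subgroup.prod_mono h1 k1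
    have e1 := card_mul_relIndex hle
    have e2 := card_mul_relIndex h1
    have e3 := card_mul_relIndex k1
    rw [centralizer_prod, Nat.card_congr (Subgroup.prodEquiv _ _).toEquiv, Nat.card_prod,
      Nat.card_congr (Subgroup.prodEquiv _ _).toEquiv, Nat.card_prod, ← e2, ← e3] at e1
    have e4 : 0 < Nat.card D * Nat.card D' := Nat.mul_pos Nat.card_pos Nat.card_pos
    have e5 : (D.prod D').relIndex (Subgroup.centralizer ({(x, y)} : Set (G × G'))) =
        D.relIndex (Subgroup.centralizer ({x} : Set G)) *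
          D'.relIndex (Subgroup.centralizer ({y} : Set G')) := by
      rw [centralizer_prod]
      apply Nat.eq_of_mul_eq_mul_left e4
      rw [e1]
      ring
    rw [e5]
    intro h
    rcases (Nat.Prime.dvd_mul hp.out).mp h with h | h
    · exact h3 h
    · exact k3 h
  · rintro _ ⟨θ, j1, ψ, j2, rfl⟩ hcon
    have i1 := hB.irr _ j1
    have i2 := hB'.irr _ j2
    rw [omega_box i1 i2] at hcon
    have h6 := red_eq_zero hcon
    rw [red_mul (i1.omega_mem O x) (i2.omega_mem O y)] at h6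
    rcases mul_eq_zero.mp h6 with h | h
    · exact h4 θ j1 ((red_eq_zero_iff (i1.omega_mem O x)).mp h)
    · exact k4 ψ j2 ((red_eq_zero_iff (i2.omega_mem O y)).mp h)
  · rw [coeff_box hB.irr hB'.irr]
    intro hcon
    have m := blockCoeff_mem hB x
    have m' := blockCoeff_mem hB' y
    have h6 := red_eq_zero hcon
    rw [red_mul m m'] at h6
    rcases mul_eq_zero.mp h6 with h | h
    · exact h5 ((red_eq_zero_iff m).mp h)
    · exact k5 ((red_eq_zero_iff m').mp h)

/-! ### admissible blocks -/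

theorem AdmB.prod (h : AdmB p O G B) (h' : AdmB p O G' B') : AdmB p O (G × G') (bxS B B') := by
  refine ⟨inferInstance, ?_, box_block h.block h'.block, ?_⟩
  · intro P hPn hPp
    have e1 : f1 P = ⊥ := h.core _ (hPn.map _ Prod.fst_surjective) (isPGroup_f1 hPp)
    have e2 : f2 P = ⊥ := h'.core _ (hPn.map _ Prod.snd_surjective) (isPGroup_f2 hPp)
    rw [eq_bot_iff, ← Subgroup.bot_prod_bot, le_prod, e1, e2]
    exact ⟨le_rfl, le_rfl⟩
  · obtain ⟨D, hD, hne⟩ := h.defect
    obtain ⟨D', hD', hne'⟩ := h'.defect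
    refine ⟨D.prod D', box_defect h.block h'.block hD hD', fun h1 => hne ?_⟩
    rw [← f1_prod D D', h1, f1_bot]

end recursion

end Pool.Agent.N22.DD
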