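import Pool.Agent.Q90.WR.Cfn

/-!
# Alternating sums over chains of `p`-subgroups of direct products
-/

set_option autoImplicit false

open scoped BigOperators Classical

noncomputable section

namespace Pool.Agent.N22.DD

open Pool.Agent.Y63.KR Pool.Agent.Q90.WR

section subgroups

variable {G K : Type} [Group G] [Group K] {p : ℕ}

/-- the first projection of a subgroup of `G × K` -/
def f1 (P : Subgroup (G × K)) : Subgroup G := P.map (MonoidHom.fst G K)

/-- the second projection of a subgroup of `G × K` -/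
def f2 (P : Subgroup (G × K)) : Subgroup K := P.map (MonoidHom.snd G K)

theorem mem_f1 {P : Subgroup (G × K)} {g : G} : g ∈ f1 P ↔ ∃ b, (g, b) ∈ P := by
  unfold f1
  rw [Subgroup.mem_map]
  constructor
  · rintro ⟨⟨a, b⟩, h, rfl⟩
    exact ⟨b, h⟩
  · rintro ⟨b, h⟩
    exact ⟨(g, b), h, rfl⟩

theorem mem_f2 {P : Subgroup (G × K)} {g : K} : g ∈ f2 P ↔ ∃ a, (a, g) ∈ P := by
  unfold f2
  rw [Subgroup.mem_map]
  constructor
  · rintro ⟨⟨a, b⟩, h, rfl⟩
    exact ⟨a, h⟩
  · rintro ⟨b, h⟩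
    exact ⟨(b, g), h, rfl⟩

theorem f1_prod (P : Subgroup G) (Q : Subgroup K) : f1 (P.prod Q) = P := by
  ext g
  rw [mem_f1]
  constructor
  · rintro ⟨b, h⟩
    exact (Subgroup.mem_prod.mp h).1
  · intro h
    exact ⟨1, Subgroup.mem_prod.mpr ⟨h, Q.one_mem⟩⟩

theorem f2_prod (P : Subgroup G) (Q : Subgroup K) : f2 (P.prod Q) = Q := by
  ext g
  rw [mem_f2]
  constructor
  · rintro ⟨b, h⟩
    exact (Subgroup.mem_prod.mp h).2
  · intro h
    exact ⟨1, Subgroup.mem_prod.mpr ⟨P.one_mem, h⟩⟩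

theorem f1_bot : f1 (⊥ : Subgroup (G × K)) = ⊥ := Subgroup.map_bot _

theorem f2_bot : f2 (⊥ : Subgroup (G × K)) = ⊥ := Subgroup.map_bot _

theorem le_prod {P : Subgroup (G × K)} {H : Subgroup G} {L : Subgroup K} :
    P ≤ H.prod L ↔ f1 P ≤ H ∧ f2 P ≤ L := Subgroup.le_prod_iff

theorem prod_le_prod {P : Subgroup (G × K)} {H : Subgroup G} {L : Subgroup K}
    (h : P ≤ H.prod L) : f1 P ≤ H ∧ f2 P ≤ L := le_prod.mp h

theorem conj_f1 (x : G × K) (P : Subgroup (G × K)) : f1 (conjSub x P) = conjSub x.1 (f1 P) := by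
  unfold f1 conjSub
  rw [Subgroup.map_map, Subgroup.map_map]
  congr 1

theorem conj_f2 (x : G × K) (P : Subgroup (G × K)) : f2 (conjSub x P) = conjSub x.2 (f2 P) := by
  unfold f2 conjSub
  rw [Subgroup.map_map, Subgroup.map_map]
  congr 1

theorem conj_prod (x : G × K) (P : Subgroup G) (Q : Subgroup K) :
    conjSub x (P.prod Q) = (conjSub x.1 P).prod (conjSub x.2 Q) := by
  ext ⟨a, b⟩
  rw [Subgroup.mem_prod, mem_conjSub, mem_conjSub, mem_conjSub, Subgroup.mem_prod]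
  rfl

theorem isPGroup_prod {P : Subgroup G} {Q : Subgroup K} (h1 : IsPGroup p P)
    (h2 : IsPGroup p Q) : IsPGroup p (P.prod Q) := by
  have h3 : IsPGroup p (P × Q) := by
    rintro ⟨a, b⟩
    obtain ⟨m, hm⟩ := h1 a
    obtain ⟨n, hn⟩ := h2 b
    refine ⟨m + n, ?_⟩
    rw [Prod.pow_mk]
    refine Prod.ext ?_ ?_
    · simp only [Prod.fst_one]
      rw [pow_add, pow_mul, hm, one_pow]
    · simp only [Prod.snd_one]
      rw [add_comm, pow_add, pow_mul, hn, one_pow]
  exact h3.of_equiv (Subgroup.prodEquiv P Q).symm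

theorem isPGroup_f1 {P : Subgroup (G × K)} (h : IsPGroup p P) : IsPGroup p (f1 P) := h.map _

theorem isPGroup_f2 {P : Subgroup (G × K)} (h : IsPGroup p P) : IsPGroup p (f2 P) := h.map _

variable [Finite G] [Finite K]

/-- the sum over the chains of invariant subgroups of a direct product -/
theorem W_prod (L : Subgroup (G × K)) :
    W p (L : Set (G × K)) = W p (f1 L : Set G) * W p (f2 L : Set K) := by
  obtain ⟨g₁, h1, hf₁⟩ := exists_weight p (f1 L : Set G)
  obtain ⟨g₂, h2, hf₂⟩ := exists_weight p (f2 L : Set K)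
  rw [W_of_weight (f := fun P => if P = (f1 P).prod (f2 P) then g₁ (f1 P) * g₂ (f2 P) else 0)]
  · simp only [f1_bot, f2_bot, Subgroup.bot_prod_bot, if_true, h1, h2]
  · intro P hP
    have hPi : ∀ Q : Subgroup (G × K), Q ∈ inv p (L : Set (G × K)) →
        f1 Q ∈ inv p (f1 L : Set G) ∧ f2 Q ∈ inv p (f2 L : Set K) := by
      intro Q hQ
      rw [mem_inv] at hQ
      rw [mem_inv, mem_inv]
      refine ⟨⟨isPGroup_f1 hQ.1, ?_⟩, isPGroup_f2 hQ.1, ?_⟩
      · intro z hz
        obtain ⟨w, hw⟩ := mem_f1.mp hz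
        rw [← conj_f1 (z, w) Q, hQ.2 _ hw]
      · intro z hz
        obtain ⟨w, hw⟩ := mem_f2.mp hz
        rw [← conj_f2 (w, z) Q, hQ.2 _ hw]
    rw [← Finset.sum_filter]
    have e : ∑ Q ∈ ((inv p (L : Set (G × K))).filter
        (P ≤ ·)).filter (fun Q => Q = (f1 Q).prod (f2 Q)), g₁ (f1 Q) * g₂ (f2 Q) =
        ∑ R ∈ ((inv p (f1 L : Set G)).filter (f1 P ≤ ·)) ×ˢ
          ((inv p (f2 L : Set K)).filter (f2 P ≤ ·)), g₁ R.1 * g₂ R.2 := by
      refine Finset.sum_bij' (fun Q _ => (f1 Q, f2 Q)) (fun R _ => R.1.prod R.2) ?_ ?_ ?_ ?_ ?_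
      · intro Q hQ
        rw [Finset.mem_filter, Finset.mem_filter] at hQ
        obtain ⟨⟨a1, a2⟩, a3⟩ := hQ
        rw [a3] at a2
        have a4 := le_prod.mp a2
        rw [Finset.mem_product, Finset.mem_filter, Finset.mem_filter]
        exact ⟨⟨(hPi Q a1).1, a4.1⟩, (hPi Q a1).2, a4.2⟩
      · rintro ⟨R₁, R₂⟩ hR
        rw [Finset.mem_product, Finset.mem_filter, Finset.mem_filter] at hR
        obtain ⟨⟨a1, a2⟩, a3, a4⟩ := hR
        simp only at a1 a2 a3 a4
        rw [mem_inv] at a1 a3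
        rw [Finset.mem_filter, Finset.mem_filter, mem_inv, f1_prod, f2_prod, le_prod]
        refine ⟨⟨⟨isPGroup_prod a1.1 a3.1, ?_⟩, a2, a4⟩, rfl⟩
        rintro ⟨c, d⟩ hx
        rw [conj_prod, a1.2 c (mem_f1.mpr ⟨d, hx⟩), a3.2 d (mem_f2.mpr ⟨c, hx⟩)]
      · intro Q hQ
        rw [Finset.mem_filter] at hQ
        exact hQ.2.symm
      · rintro ⟨R₁, R₂⟩ _
        exact Prod.ext (f1_prod _ _) (f2_prod _ _)
      · intro Q _
        rfl
    rw [e, Finset.sum_product]
    simp only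
    rw [← Finset.sum_mul_sum, hf₁ _ (hPi P hP).1, hf₂ _ (hPi P hP).2, one_mul]

variable {R : Type} [CommRing R]

/-- **the functional identity for direct products** -/
theorem functional_prod (φ : Subgroup (G × K) → R) :
    ∑ υ : Ch p (G × K), (-1 : R) ^ υ.1.ncard * φ (chainStabilizer υ.1) =
      ∑ σ : Ch p G, ∑ τ : Ch p K, (-1 : R) ^ σ.1.ncard * ((-1 : R) ^ τ.1.ncard *
        φ ((chainStabilizer σ.1).prod (chainStabilizer τ.1))) := by
  have : Fintype (Subgroup (G × K)) := Fintype.ofFinite _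
  obtain ⟨c, hc⟩ := exists_moebius φ
  have key : ∀ L : Subgroup (G × K), ∀ r : R,
      ∑ υ : Ch p (G × K), (-1 : R) ^ υ.1.ncard * (if L ≤ chainStabilizer υ.1 then r else 0) =
      ∑ σ : Ch p G, ∑ τ : Ch p K, (-1 : R) ^ σ.1.ncard * ((-1 : R) ^ τ.1.ncard *
        (if L ≤ (chainStabilizer σ.1).prod (chainStabilizer τ.1) then r else 0)) := by
    intro L r
    rw [W_sum, W_prod]
    have e1 : ∑ σ : Ch p G, ∑ τ : Ch p K, (-1 : R) ^ σ.1.ncard * ((-1 : R) ^ τ.1.ncard *
        (if L ≤ (chainStabilizer σ.1).prod (chainStabilizer τ.1) then r else 0)) =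
        (∑ σ : Ch p G, (-1 : R) ^ σ.1.ncard *
          (if f1 L ≤ chainStabilizer σ.1 then (1 : R) else 0)) *
        ∑ τ : Ch p K, (-1 : R) ^ τ.1.ncard *
          (if f2 L ≤ chainStabilizer τ.1 then r else 0) := by
      rw [Finset.sum_mul_sum]
      refine Finset.sum_congr rfl fun σ _ => Finset.sum_congr rfl fun τ _ => ?_
      have h := le_prod (P := L) (H := chainStabilizer σ.1) (L := chainStabilizer τ.1)
      by_cases c1 : f1 L ≤ chainStabilizer σ.1
      · by_cases c2 : f2 L ≤ chainStabilizer τ.1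
        · rw [if_pos (h.mpr ⟨c1, c2⟩), if_pos c1, if_pos c2]
          ring
        · rw [if_neg (fun h' => c2 (h.mp h').2), if_neg c2]
          simp
      · rw [if_neg (fun h' => c1 (h.mp h').1), if_neg c1]
        simp
    rw [e1, W_sum, W_sum, mul_one]
    push_cast
    ring
  simp_rw [hc]
  simp_rw [Finset.mul_sum]
  have k1 : ∑ υ : Ch p (G × K), ∑ L : Subgroup (G × K), (-1 : R) ^ υ.1.ncard *
      (if L ≤ chainStabilizer υ.1 then c L else 0) =
      ∑ L : Subgroup (G × K), ∑ υ : Ch p (G × K), (-1 : R) ^ υ.1.ncard *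
      (if L ≤ chainStabilizer υ.1 then c L else 0) := Finset.sum_comm
  rw [k1, Finset.sum_congr rfl fun L _ => key L (c L), Finset.sum_comm]
  refine Finset.sum_congr rfl fun σ _ => ?_
  rw [Finset.sum_comm]

end subgroups

end Pool.Agent.N22.DD
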