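import Mathlib

/-!
# Values of a polynomial along the iterated squares of a complex number
-/

set_option autoImplicit false

open scoped BigOperators

noncomputable section

namespace Pool.Agent.N22.DD

open Polynomial Filter

/-- the uniform inequality -/
theorem norm_le_of {u v : ℂ} (hv : ‖v‖ ≤ 1) (h1 : ‖v ^ 2 + 3 * u‖ ≤ 2)
    (h2 : ‖v ^ 4 + 3 * u ^ 2‖ ≤ 2) : ‖u‖ ≤ 19 / 20 := by
  by_contra hu
  push Not at hu
  have h3 : ‖3 * u‖ ≤ 3 := by
    have h4 : 3 * u = (v ^ 2 + 3 * u) - v ^ 2 := by ring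
    rw [h4]
    refine (norm_sub_le _ _).trans ?_
    rw [norm_pow]
    have : ‖v‖ ^ 2 ≤ 1 := pow_le_one₀ (norm_nonneg _) hv
    linarith
  have h5 : ‖u‖ ≤ 1 := by
    rw [norm_mul] at h3
    have : ‖(3 : ℂ)‖ = 3 := by simp
    rw [this] at h3
    linarith
  -- the general computation
  have key : ∀ x y : ℂ, ‖y‖ ≤ 1 → ‖y + 3 * x‖ ≤ 2 → ‖y + x‖ ^ 2 ≤ 2 * (1 - ‖x‖ ^ 2) := by
    intro x y hy hxy
    have e2 : Complex.normSq (y + 3 * x) ≤ 4 := by
      rw [Complex.normSq_eq_norm_sq]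
      nlinarith [norm_nonneg (y + 3 * x)]
    have e4 : Complex.normSq y ≤ 1 := by
      rw [Complex.normSq_eq_norm_sq]
      nlinarith [norm_nonneg y]
    have e5 : Complex.normSq (y + x) = Complex.normSq y + Complex.normSq x +
        2 * (y.re * x.re + y.im * x.im) := by
      simp only [Complex.normSq_apply, Complex.add_re, Complex.add_im]
      ring
    have e6 : Complex.normSq (y + 3 * x) = Complex.normSq y + 9 * Complex.normSq x +
        6 * (y.re * x.re + y.im * x.im) := by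
      simp only [Complex.normSq_apply, Complex.add_re, Complex.add_im, Complex.mul_re,
        Complex.mul_im, Complex.re_ofNat, Complex.im_ofNat]
      ring
    rw [← Complex.normSq_eq_norm_sq, ← Complex.normSq_eq_norm_sq]
    linarith
  have hv2 : ‖v ^ 2‖ ≤ 1 := by rw [norm_pow]; exact pow_le_one₀ (norm_nonneg _) hv
  have hv4 : ‖v ^ 4‖ ≤ 1 := by rw [norm_pow]; exact pow_le_one₀ (norm_nonneg _) hv
  have k1 := key u (v ^ 2) hv2 h1
  have k2 := key (u ^ 2) (v ^ 4) hv4 h2
  rw [norm_pow] at k2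
  have a0 := norm_nonneg (v ^ 2 + u)
  have b0 := norm_nonneg (v ^ 4 + u ^ 2)
  have hu2 : 361 / 400 < ‖u‖ ^ 2 := by nlinarith
  have hu3 : ‖u‖ ^ 2 ≤ 1 := pow_le_one₀ (norm_nonneg _) h5
  have a1 : ‖v ^ 2 + u‖ < 9 / 20 := by
    by_contra hcon
    push Not at hcon
    nlinarith
  have b1 : ‖v ^ 4 + u ^ 2‖ < 63 / 100 := by
    by_contra hcon
    push Not at hcon
    nlinarith
  have k3 : ‖2 * u ^ 2‖ ≤ ‖v ^ 4 + u ^ 2‖ + 2 * ‖v ^ 2 + u‖ := by
    have e1 : 2 * u ^ 2 = (v ^ 4 + u ^ 2) - (v ^ 2 - u) * (v ^ 2 + u) := by ring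
    rw [e1]
    refine (norm_sub_le _ _).trans ?_
    rw [norm_mul]
    have e2 : ‖v ^ 2 - u‖ ≤ 2 := (norm_sub_le _ _).trans (by linarith)
    have e3 := mul_le_mul_of_nonneg_right e2 a0
    linarith
  rw [norm_mul, norm_pow] at k3
  have : ‖(2 : ℂ)‖ = 2 := by simp
  rw [this] at k3
  linarith

/-- iterated squares are distinct -/
theorem pow_inj_of {t : ℂ} (ht0 : t ≠ 0) (ht : ∀ n : ℕ, 0 < n → t ^ n ≠ 1) :
    Function.Injective (fun k : ℕ => t ^ (2 ^ k)) := by
  have key : ∀ i j : ℕ, i < j → t ^ (2 ^ i) ≠ t ^ (2 ^ j) := by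
    intro i j hij h
    have h1 : 2 ^ i < 2 ^ j := Nat.pow_lt_pow_right (by norm_num) hij
    refine ht (2 ^ j - 2 ^ i) (Nat.sub_pos_of_lt h1) ?_
    have h2 : t ^ (2 ^ i) * t ^ (2 ^ j - 2 ^ i) = t ^ (2 ^ i) * 1 := by
      rw [← pow_add, Nat.add_sub_cancel' h1.le, mul_one, h]
    exact mul_left_cancel₀ (pow_ne_zero _ ht0) h2
  intro i j h
  rcases lt_trichotomy i j with h1 | h1 | h1
  · exact absurd h (key i j h1)
  · exact h1
  · exact absurd h.symm (key j i h1)

/-- points where a polynomial is small are near its roots -/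
theorem near_root {P : ℂ[X]} (hP : P ≠ 0) {x : ℕ → ℂ}
    (hx : Tendsto (fun k => P.eval (x k)) atTop (nhds 0)) {η : ℝ} (hη : 0 < η) :
    ∀ᶠ k in atTop, ∃ z, P.IsRoot z ∧ ‖x k - z‖ < η := by
  have hl : 0 < ‖P.leadingCoeff‖ * η ^ (Multiset.card P.roots) := by
    have := norm_pos_iff.mpr (leadingCoeff_ne_zero.mpr hP)
    positivity
  have h1 := (hx.norm).eventually_lt_const (by rwa [norm_zero])
  filter_upwards [h1] with k hk
  by_contra hcon
  push Not at hcon
  have h2 : P.eval (x k) = P.leadingCoeff * (P.roots.map (fun a => x k - a)).prod := by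
    have h3 := (IsAlgClosed.splits P).eq_prod_roots
    conv_lhs => rw [h3]
    rw [eval_mul, eval_C, eval_multiset_prod, Multiset.map_map]
    congr 2
    refine Multiset.map_congr rfl fun a _ => ?_
    simp
  rw [h2, norm_mul] at hk
  have h4 : ∀ s : Multiset ℂ, (∀ a ∈ s, η ≤ ‖x k - a‖) →
      η ^ (Multiset.card s) ≤ ‖(s.map (fun a => x k - a)).prod‖ := by
    intro s
    induction s using Multiset.induction_on with
    | empty => intro _; simp
    | cons a s ih =>
      intro h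
      rw [Multiset.card_cons, Multiset.map_cons, Multiset.prod_cons, norm_mul, pow_succ, mul_comm]
      exact mul_le_mul (h a (Multiset.mem_cons_self a s))
        (ih fun b hb => h b (Multiset.mem_cons_of_mem hb)) (by positivity) (norm_nonneg _)
  have h5 := h4 P.roots fun a ha => hcon a (isRoot_of_mem_roots ha)
  have h6 := mul_le_mul_of_nonneg_left h5 (norm_nonneg P.leadingCoeff)
  exact absurd hk (not_lt.mpr h6)

/-- **a polynomial which tends to zero along the iterated squares of a number on the unit circle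
vanishes, unless the number is a root of unity** -/
theorem zero_of_circle {P : ℂ[X]} {t : ℂ} (ht1 : ‖t‖ = 1) (ht : ∀ n : ℕ, 0 < n → t ^ n ≠ 1)
    (h : Tendsto (fun k : ℕ => P.eval (t ^ (2 ^ k))) atTop (nhds 0)) : P = 0 := by
  by_contra hP
  have ht0 : t ≠ 0 := by
    intro h0
    rw [h0, norm_zero] at ht1
    exact zero_ne_one ht1
  set x : ℕ → ℂ := fun k => t ^ (2 ^ k) with hxdef
  have hxs : ∀ k, x (k + 1) = x k ^ 2 := by
    intro k
    simp only [hxdef]
    rw [← pow_mul, ← pow_succ]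
  have hx1 : ∀ k, ‖x k‖ = 1 := by
    intro k
    simp only [hxdef]
    rw [norm_pow, ht1, one_pow]
  -- separation
  obtain ⟨D, hD, hsep⟩ : ∃ D : ℝ, 0 < D ∧ ∀ z z' : ℂ, P.IsRoot z → P.IsRoot z' →
      ‖z' - z ^ 2‖ < D → z' = z ^ 2 := by
    set S : Finset ℝ := ((P.roots.toFinset ×ˢ P.roots.toFinset).image
      (fun q : ℂ × ℂ => ‖q.2 - q.1 ^ 2‖)).filter (fun r => 0 < r) with hS
    have hSp : ∀ r ∈ S, 0 < r := by
      intro r hr
      rw [hS, Finset.mem_filter] at hr
      exact hr.2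
    by_cases hne : S.Nonempty
    · refine ⟨S.min' hne, hSp _ (S.min'_mem hne), ?_⟩
      · intro z z' hz hz' hlt
        by_contra hcon
        have h1 : ‖z' - z ^ 2‖ ∈ S := by
          rw [hS, Finset.mem_filter, Finset.mem_image]
          refine ⟨⟨(z, z'), ?_, rfl⟩, norm_pos_iff.mpr (sub_ne_zero.mpr hcon)⟩
          rw [Finset.mem_product, Multiset.mem_toFinset, Multiset.mem_toFinset]
          exact ⟨(mem_roots hP).mpr hz, (mem_roots hP).mpr hz'⟩
        exact absurd hlt (not_lt.mpr (S.min'_le _ h1))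
    · refine ⟨1, one_pos, fun z z' hz hz' _ => ?_⟩
      by_contra hcon
      apply hne
      refine ⟨‖z' - z ^ 2‖, ?_⟩
      rw [hS, Finset.mem_filter, Finset.mem_image]
      refine ⟨⟨(z, z'), ?_, rfl⟩, norm_pos_iff.mpr (sub_ne_zero.mpr hcon)⟩
      rw [Finset.mem_product, Multiset.mem_toFinset, Multiset.mem_toFinset]
      exact ⟨(mem_roots hP).mpr hz, (mem_roots hP).mpr hz'⟩
  set η : ℝ := min (1 / 2) (D / 4) with hη
  have hη0 : 0 < η := lt_min (by norm_num) (by linarith)
  have hη1 : η ≤ 1 / 2 := min_le_left _ _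
  have hη2 : η ≤ D / 4 := min_le_right _ _
  obtain ⟨m, hm⟩ := eventually_atTop.mp (near_root hP h hη0)
  choose! z hz using hm
  -- the roots follow the squares
  have hstep : ∀ k ≥ m, z (k + 1) = z k ^ 2 := by
    intro k hk
    have a1 := hz k hk
    have a2 := hz (k + 1) (by omega)
    refine hsep _ _ a1.1 a2.1 ?_
    have e1 : z (k + 1) - z k ^ 2 = -(x (k + 1) - z (k + 1)) + (x k - z k) * (x k + z k) := by
      rw [hxs]
      ring
    have e2 : ‖x k + z k‖ ≤ 5 / 2 := by
      have e3 : x k + z k = 2 * x k - (x k - z k) := by ring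
      rw [e3]
      refine (norm_sub_le _ _).trans ?_
      rw [norm_mul, hx1]
      have : ‖(2 : ℂ)‖ = 2 := by simp
      rw [this]
      linarith [a1.2]
    rw [e1]
    refine (norm_add_le _ _).trans_lt ?_
    rw [norm_neg, norm_mul]
    have e4 : ‖x k - z k‖ * ‖x k + z k‖ ≤ η * (5 / 2) :=
      mul_le_mul a1.2.le e2 (norm_nonneg _) hη0.le
    have e5 : ‖x (k + 1) - z (k + 1)‖ < η := a2.2
    linarith
  have hgrow : ∀ k ≥ m, 3 / 2 * ‖x k - z k‖ ≤ ‖x (k + 1) - z (k + 1)‖ := by
    intro k hk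
    have a1 := hz k hk
    have e1 : x (k + 1) - z (k + 1) = (x k - z k) * (x k + z k) := by
      rw [hxs, hstep k hk]
      ring
    have e2 : 3 / 2 ≤ ‖x k + z k‖ := by
      have e3 : 2 * x k = (x k + z k) + (x k - z k) := by ring
      have e4 : ‖2 * x k‖ = 2 := by
        rw [norm_mul, hx1]
        simp
      have e5 := norm_add_le (x k + z k) (x k - z k)
      rw [← e3, e4] at e5
      linarith [a1.2]
    rw [e1, norm_mul, mul_comm]
    exact mul_le_mul_of_nonneg_left e2 (norm_nonneg _)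
  have hzero : ∀ k ≥ m, x k = z k := by
    intro k hk
    have h1 : ∀ j : ℕ, (3 / 2 : ℝ) ^ j * ‖x k - z k‖ ≤ ‖x (k + j) - z (k + j)‖ := by
      intro j
      induction j with
      | zero => simp
      | succ j ih =>
        have h2 := hgrow (k + j) (by omega)
        rw [pow_succ]
        have h3 : (3 / 2 : ℝ) ^ j * (3 / 2) * ‖x k - z k‖ =
            3 / 2 * ((3 / 2 : ℝ) ^ j * ‖x k - z k‖) := by ring
        rw [h3]
        refine le_trans ?_ h2
        linarith
    by_contra hne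
    have hpos : 0 < ‖x k - z k‖ := norm_pos_iff.mpr (sub_ne_zero.mpr hne)
    obtain ⟨j, hj⟩ := pow_unbounded_of_one_lt (η / ‖x k - z k‖) (by norm_num : (1 : ℝ) < 3 / 2)
    rw [div_lt_iff₀ hpos] at hj
    have h4 := (hz (k + j) (by omega)).2
    have h5 := h1 j
    linarith
  -- infinitely many roots
  have hinj := pow_inj_of ht0 ht
  have hinf : Set.Infinite {z : ℂ | P.IsRoot z} := by
    refine Set.infinite_of_injective_forall_mem (f := fun k : ℕ => x (m + k)) ?_ ?_
    · intro a b hab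
      have := hinj hab
      omega
    · intro k
      have h1 := (hz (m + k) (by omega)).1
      rw [← hzero (m + k) (by omega)] at h1
      exact h1
  exact hP (eq_zero_of_infinite_isRoot P hinf)

/-- the same outside the unit disc -/
theorem zero_of_outside {P : ℂ[X]} {t : ℂ} (ht1 : 1 < ‖t‖)
    (h : Tendsto (fun k : ℕ => P.eval (t ^ (2 ^ k))) atTop (nhds 0)) : P = 0 := by
  have hdeg : P.degree ≤ 0 := by
    by_contra hcon
    have h2 : Tendsto (fun k : ℕ => ‖t ^ (2 ^ k)‖) atTop atTop := by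
      simp only [norm_pow]
      exact (tendsto_pow_atTop_atTop_of_one_lt ht1).comp
        (tendsto_pow_atTop_atTop_of_one_lt (by norm_num : 1 < 2))
    have h3 := Polynomial.tendsto_norm_atTop _ (not_le.mp hcon) h2
    have h4 := h.norm
    rw [norm_zero] at h4
    exact not_tendsto_nhds_of_tendsto_atTop h3 _ h4
  rw [eq_C_of_degree_le_zero hdeg] at h ⊢
  simp only [eval_C] at h
  have h5 := tendsto_nhds_unique h tendsto_const_nhds
  rw [← h5, C_0]

/-- both cases -/
theorem zero_of_squares {P : ℂ[X]} {t : ℂ} (ht1 : 1 ≤ ‖t‖) (ht : ∀ n : ℕ, 0 < n → t ^ n ≠ 1)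
    (h : Tendsto (fun k : ℕ => P.eval (t ^ (2 ^ k))) atTop (nhds 0)) : P = 0 := by
  rcases ht1.eq_or_lt with h1 | h1
  · exact zero_of_circle h1.symm ht h
  · exact zero_of_outside h1 h

end Pool.Agent.N22.DD
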