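import Pool.Agent.N22.DD.Wgt
import Pool.Agent.N22.DD.Anl
import Pool.Agent.N22.DD.Dyn

/-!
# Subpolynomial bounds for alternating sums
-/

set_option autoImplicit false
set_option linter.unusedSectionVars false

open scoped BigOperators Classical

noncomputable section

namespace Pool.Agent.N22.DD

open Pool.Agent.Y63.KR Pool.Agent.Q90.WR Pool.Agent.Q259.BW Pool.Agent.H254R3.IN Polynomial

/-- classes of pairs of a group and a set of functions on it -/
abbrev Cl : Type 1 := (G : Type) → Group G → Set (G → ℂ) → Prop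

/-- `C` is closed under `(G, B) ↦ (G × G, B ⊗ B)` -/
def SqC (C : Cl) : Prop := ∀ (G : Type) [i : Group G] (B : Set (G → ℂ)), C G i B →
  C (G × G) inferInstance (bxS B B)

/-- `C` is closed under `(G, B) ↦ (G ≀ C₂, B ≀ C₂)` -/
def WrC (C : Cl) : Prop := ∀ (G : Type) [i : Group G] (B : Set (G → ℂ)), C G i B →
  C (Wr G) inferInstance (WrS B)

/-- `a` grows on `C` more slowly than every power of the group order -/
def SubP (C : Cl) (a : (G : Type) → [Group G] → Set (G → ℂ) → ℝ) : Prop :=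
  ∀ ε : ℝ, 0 < ε → ∃ c : ℝ, ∀ (G : Type) [i : Group G] (B : Set (G → ℂ)), C G i B →
    a G B ≤ c * (Nat.card G : ℝ) ^ ε

/-- squares improve subpolynomial bounds -/
theorem tensor {C : Cl} (hF : ∀ (G : Type) [i : Group G] (B : Set (G → ℂ)), C G i B → Finite G)
    (hS : SqC C) (a : (G : Type) → [Group G] → Set (G → ℂ) → ℝ)
    (hm : ∀ (G : Type) [i : Group G] (B : Set (G → ℂ)), C G i B →
      a (G × G) (bxS B B) = a G B ^ 2) (hs : SubP C a) :
    ∀ (G : Type) [i : Group G] (B : Set (G → ℂ)), C G i B → a G B ≤ 1 := by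
  have key : ∀ (ε c : ℝ), (∀ (G : Type) [i : Group G] (B : Set (G → ℂ)), C G i B →
      a G B ≤ c * (Nat.card G : ℝ) ^ ε) → ∀ (k : ℕ) (G : Type) [i : Group G] (B : Set (G → ℂ)),
      C G i B → a G B ^ (2 ^ k) ≤ c * ((Nat.card G : ℝ) ^ ε) ^ (2 ^ k) := by
    intro ε c h k
    induction k with
    | zero =>
      intro G _ B hB
      rw [pow_zero, pow_one, pow_one]
      exact h G B hB
    | succ k ih =>
      intro G _ B hB
      have h1 := ih (G × G) (bxS B B) (hS G B hB)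
      rw [hm G B hB, Nat.card_prod, Nat.cast_mul,
        Real.mul_rpow (Nat.cast_nonneg _) (Nat.cast_nonneg _), ← pow_two, ← pow_mul, ← pow_mul]
        at h1
      rw [pow_succ, mul_comm (2 ^ k) 2]
      exact h1
  intro G _ B hB
  have := hF G B hB
  have hg : (0 : ℝ) < Nat.card G := by exact_mod_cast Nat.card_pos (α := G)
  refine le_one_of_rpow hg fun ε hε => ?_
  obtain ⟨c, hc⟩ := hs ε hε
  exact le_of_powers (Real.rpow_pos_of_pos hg ε) (fun k => key ε c hc k G B hB)

section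

variable {p : ℕ} [hp : Fact p.Prime] {O : ValuationSubring ℂ}

theorem Wt_sum {G : Type} [Group G] [Finite G] {B : Set (G → ℂ)} (t : ℂ) :
    Wt p O t B = ∑ d ∈ Finset.range ((Nat.card G).factorization p + 1),
      (blkDef p O d B : ℂ) * t ^ d := by
  have := Fintype.ofFinite G
  rw [Wt_eq, aeval_blkP]

theorem norm_Wt_le {G : Type} [Group G] [Finite G] {B : Set (G → ℂ)} {t : ℂ} (ht : ‖t‖ = 1)
    {x : ℝ} (h : ∀ d, (blkDef p O d B : ℝ) ≤ x) (hx : 0 ≤ x) (hA : 0 ≤ blkAlt p O B) :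
    ‖Wt p O t B‖ ≤ 2 * (((Nat.card G).factorization p + 1 : ℕ) : ℝ) * x := by
  have := Fintype.ofFinite G
  rw [Wt_sum]
  refine (norm_sum_le _ _).trans ?_
  have h1 : ∀ d ∈ Finset.range ((Nat.card G).factorization p + 1),
      ‖(blkDef p O d B : ℂ) * t ^ d‖ ≤ 2 * x - (blkDef p O d B : ℝ) := by
    intro d _
    rw [norm_mul, norm_pow, ht, one_pow, mul_one, Complex.norm_intCast]
    have h2 := h d
    rcases abs_cases (blkDef p O d B : ℝ) with ⟨h3, _⟩ | ⟨h3, _⟩
    · rw [h3]; linarith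
    · rw [h3]; linarith
  refine (Finset.sum_le_sum h1).trans ?_
  rw [Finset.sum_sub_distrib, Finset.sum_const, Finset.card_range, nsmul_eq_mul]
  have h4 : (∑ d ∈ Finset.range ((Nat.card G).factorization p + 1), (blkDef p O d B : ℝ)) =
      (blkAlt p O B : ℝ) := by
    have h5 := Wt_sum (p := p) (O := O) (B := B) 1
    rw [Wt_one] at h5
    simp only [one_pow, mul_one] at h5
    exact_mod_cast h5.symm
  rw [h4]
  have h6 : (0 : ℝ) ≤ (blkAlt p O B : ℝ) := by exact_mod_cast hA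
  linarith

variable {C : Cl}

theorem blkAlt_sq {G : Type} [Group G] [Finite G] {B : Set (G → ℂ)} (hB : IsBlock O B) :
    blkAlt p O (bxS B B) = blkAlt p O B ^ 2 := by
  have := Fintype.ofFinite G
  have h := Wt_prod (p := p) hB hB 1
  rw [Wt_one, Wt_one] at h
  rw [pow_two]
  exact_mod_cast h

/-- upper bounds for the alternating sums bound the weighted sums -/
theorem Wt_le_one_of_upper
    (hA : ∀ (G : Type) [i : Group G] (B : Set (G → ℂ)), C G i B → AdmB p O G B) (hS : SqC C)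
    (hs : ∀ ε : ℝ, 0 < ε → ∃ c : ℝ, ∀ (G : Type) [i : Group G] (B : Set (G → ℂ)), C G i B →
      ∀ d, (blkDef p O d B : ℝ) ≤ c * (Nat.card G : ℝ) ^ ε) {t : ℂ} (ht : ‖t‖ = 1) :
    ∀ (G : Type) [i : Group G] (B : Set (G → ℂ)), C G i B → ‖Wt p O t B‖ ≤ 1 := by
  have hsub : SubP C (fun G _ B => ‖Wt p O t B‖ ^ 2) := by
    intro ε hε
    obtain ⟨c, hc⟩ := hs (ε / 4) (by linarith)
    obtain ⟨c', hc0, hc'⟩ := fac_bound (show (0 : ℝ) < ε / 4 by linarith)
    refine ⟨2 * (c' * max c 0), fun G _ B hB => ?_⟩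
    have := (hA G B hB).fin
    have := Fintype.ofFinite G
    have hb := (hA G B hB).block
    have hg : (0 : ℝ) < Nat.card (G × G) := by exact_mod_cast Nat.card_pos (α := G × G)
    have hg' : (0 : ℝ) < Nat.card G := by exact_mod_cast Nat.card_pos (α := G)
    have hr := Real.rpow_nonneg hg.le (ε / 4)
    have h1 : ∀ d, (blkDef p O d (bxS B B) : ℝ) ≤ max c 0 * (Nat.card (G × G) : ℝ) ^ (ε / 4) :=
      fun d => (hc _ _ (hS G B hB) d).trans (mul_le_mul_of_nonneg_right (le_max_left _ _) hr)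
    have h0 : 0 ≤ max c 0 * (Nat.card (G × G) : ℝ) ^ (ε / 4) := mul_nonneg (le_max_right _ _) hr
    have hq : 0 ≤ blkAlt p O (bxS B B) := by
      rw [blkAlt_sq hb]
      exact sq_nonneg _
    have h2 := norm_Wt_le ht h1 h0 hq
    have h3 : ‖Wt p O t (bxS B B)‖ = ‖Wt p O t B‖ ^ 2 := by
      rw [Wt_prod hb hb, norm_mul, pow_two]
    rw [h3] at h2
    refine h2.trans ?_
    have h4 := hc' p (Nat.card (G × G)) hp.out.two_le Nat.card_pos
    have h5 : (Nat.card G : ℝ) ^ ε = (Nat.card (G × G) : ℝ) ^ (ε / 4) *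
        (Nat.card (G × G) : ℝ) ^ (ε / 4) := by
      rw [← Real.rpow_add hg, Nat.card_prod, Nat.cast_mul, ← pow_two, ← Real.rpow_natCast,
        ← Real.rpow_mul hg'.le]
      congr 1
      push_cast
      ring
    rw [h5]
    calc 2 * (((Nat.card (G × G)).factorization p + 1 : ℕ) : ℝ) *
          (max c 0 * (Nat.card (G × G) : ℝ) ^ (ε / 4))
        ≤ 2 * (c' * (Nat.card (G × G) : ℝ) ^ (ε / 4)) *
          (max c 0 * (Nat.card (G × G) : ℝ) ^ (ε / 4)) := by
          refine mul_le_mul_of_nonneg_right ?_ h0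
          linarith
      _ = _ := by ring
  intro G _ B hB
  have h1 := tensor (fun G _ B hB => (hA G B hB).fin) hS (fun G _ B => ‖Wt p O t B‖ ^ 2)
    (fun G _ B hB => by
      have := (hA G B hB).fin
      have := Fintype.ofFinite G
      have hb := (hA G B hB).block
      change ‖Wt p O t (bxS B B)‖ ^ 2 = (‖Wt p O t B‖ ^ 2) ^ 2
      rw [Wt_prod hb hb, norm_mul, ← pow_two]) hsub G B hB
  exact (pow_le_one_iff_of_nonneg (norm_nonneg _) two_ne_zero).mp h1

/-- **all primes** -/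
theorem sq_le_one (hA : ∀ (G : Type) [i : Group G] (B : Set (G → ℂ)), C G i B → AdmB p O G B)
    (hS : SqC C) (hs : ∀ ε : ℝ, 0 < ε → ∃ c : ℝ, ∀ (G : Type) [i : Group G] (B : Set (G → ℂ)),
      C G i B → ∀ d, (blkDef p O d B : ℝ) ≤ c * (Nat.card G : ℝ) ^ ε) (G : Type)
    [i : Group G] (B : Set (G → ℂ)) (hB : C G i B) :
    ∑ d ∈ Finset.range ((Nat.card G).factorization p + 1), blkDef p O d B ^ 2 ≤ 1 := by
  have := (hA G B hB).fin
  obtain ⟨z, hz, h1⟩ := parseval (fun d => blkDef p O d B)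
    (Nat.succ_pos ((Nat.card G).factorization p))
  rw [← Wt_sum] at h1
  have h2 := Wt_le_one_of_upper hA hS hs hz G B hB
  have h3 : ‖Wt p O z B‖ ^ 2 ≤ 1 := pow_le_one₀ (norm_nonneg _) h2
  exact_mod_cast h1.trans h3

/-- the conclusion for all primes in terms of the single numbers -/
theorem single_of_sq {G : Type} [Group G] [Finite G] {B : Set (G → ℂ)}
    (h : ∑ d ∈ Finset.range ((Nat.card G).factorization p + 1), blkDef p O d B ^ 2 ≤ 1) :
    (∀ d, |blkDef p O d B| ≤ 1) ∧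
      ∀ d e, blkDef p O d B ≠ 0 → blkDef p O e B ≠ 0 → d = e := by
  have hr : ∀ d, blkDef p O d B ≠ 0 → d ∈ Finset.range ((Nat.card G).factorization p + 1) := by
    intro d hd
    rw [Finset.mem_range, Nat.lt_succ_iff]
    by_contra hlt
    exact hd (blkDef_zero (not_le.mp hlt))
  constructor
  · intro d
    by_cases hd : blkDef p O d B = 0
    · rw [hd]; simp
    · have h1 := Finset.single_le_sum (f := fun d => blkDef p O d B ^ 2)
        (fun e _ => sq_nonneg (blkDef p O e B)) (hr d hd)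
      have h2 : blkDef p O d B ^ 2 ≤ 1 := h1.trans h
      exact abs_le_one_iff_mul_self_le_one.mpr (by rwa [pow_two] at h2)
  · intro d e hd he
    by_contra hne
    have h1 : blkDef p O d B ^ 2 + blkDef p O e B ^ 2 ≤
        ∑ d ∈ Finset.range ((Nat.card G).factorization p + 1), blkDef p O d B ^ 2 := by
      rw [← Finset.sum_pair (f := fun d => blkDef p O d B ^ 2) hne]
      refine Finset.sum_le_sum_of_subset_of_nonneg ?_ fun _ _ _ => sq_nonneg _
      intro x hx
      rcases Finset.mem_insert.mp hx with rfl | hx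
      · exact hr _ hd
      · rw [Finset.mem_singleton.mp hx]
        exact hr _ he
    have h2 : 0 < blkDef p O d B ^ 2 := by positivity
    have h3 : 0 < blkDef p O e B ^ 2 := by positivity
    omega

/-! ### families of values -/

/-- values of multiplicative functions which satisfy the recursion for wreath products -/
structure Fam (C : Cl) (E : ℂ → (G : Type) → [Group G] → Set (G → ℂ) → ℂ) : Prop where
  /-- direct squares -/
  sq : ∀ (z : ℂ) (G : Type) [i : Group G] (B : Set (G → ℂ)), C G i B →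
    E z (G × G) (bxS B B) = E z G B ^ 2
  /-- wreath products -/
  wr : ∀ (z : ℂ) (G : Type) [i : Group G] (B : Set (G → ℂ)), C G i B →
    2 * E z (Wr G) (WrS B) = E z G B ^ 2 + 3 * E (z ^ 2) G B

theorem norm_two : ‖(2 : ℂ)‖ = 2 := by simp

/-- **contraction** -/
theorem Fam.contract {E : ℂ → (G : Type) → [Group G] → Set (G → ℂ) → ℂ} (hE : Fam C E)
    (hS : SqC C) (hW : WrC C) {t : ℂ} (h : ∀ (G : Type) [i : Group G] (B : Set (G → ℂ)),
      C G i B → ‖E t G B‖ ≤ 1) (k : ℕ) :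
    ∀ (G : Type) [i : Group G] (B : Set (G → ℂ)), C G i B →
      ‖E (t ^ (2 ^ (k + 1))) G B‖ ≤ 19 / 20 * (59 / 60) ^ k := by
  induction k with
  | zero =>
    intro G _ B hB
    have hSB := hS G B hB
    have e1 := hE.wr t G B hB
    have e2 := hE.wr t _ _ hSB
    rw [hE.sq t G B hB, hE.sq _ G B hB] at e2
    rw [zero_add, pow_one, pow_zero, mul_one]
    refine norm_le_of (h G B hB) ?_ ?_
    · rw [← e1, norm_mul, norm_two]
      have h1 := h _ _ (hW G B hB)
      linarith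
    · have e3 : E t G B ^ 4 + 3 * E (t ^ 2) G B ^ 2 = 2 * E t (Wr (G × G)) (WrS (bxS B B)) := by
        rw [e2]; ring
      rw [e3, norm_mul, norm_two]
      have h1 := h _ _ (hW _ _ hSB)
      linarith
  | succ k ih =>
    intro G _ B hB
    have h1 := ih G B hB
    have h2 := ih _ _ (hW G B hB)
    have e1 := hE.wr (t ^ (2 ^ (k + 1))) G B hB
    rw [← pow_mul, ← pow_succ] at e1
    set r : ℝ := 19 / 20 * (59 / 60) ^ k with hr
    have hr0 : 0 ≤ r := by positivity
    have hr1 : r ≤ 19 / 20 := by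
      have : ((59 : ℝ) / 60) ^ k ≤ 1 := pow_le_one₀ (by norm_num) (by norm_num)
      rw [hr]
      linarith
    have e2 : 3 * E (t ^ (2 ^ (k + 1 + 1))) G B =
        2 * E (t ^ (2 ^ (k + 1))) (Wr G) (WrS B) - E (t ^ (2 ^ (k + 1))) G B ^ 2 := by
      rw [e1]; ring
    have e3 : 3 * ‖E (t ^ (2 ^ (k + 1 + 1))) G B‖ ≤ 2 * r + r ^ 2 := by
      have e4 : ‖3 * E (t ^ (2 ^ (k + 1 + 1))) G B‖ = 3 * ‖E (t ^ (2 ^ (k + 1 + 1))) G B‖ := by
        rw [norm_mul]; simp
      rw [← e4, e2]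
      refine (norm_sub_le _ _).trans ?_
      rw [norm_mul, norm_two, norm_pow]
      have e5 := pow_le_pow_left₀ (norm_nonneg _) h1 2
      linarith
    have e6 : r ^ 2 ≤ r * (19 / 20) := by
      rw [pow_two]
      exact mul_le_mul_of_nonneg_left hr1 hr0
    have e7 : 19 / 20 * (59 / 60 : ℝ) ^ (k + 1) = r * (59 / 60) := by
      rw [hr, pow_succ]; ring
    rw [e7]
    linarith

theorem Fam.tendsto {E : ℂ → (G : Type) → [Group G] → Set (G → ℂ) → ℂ} (hE : Fam C E)
    (hS : SqC C) (hW : WrC C) {t : ℂ} (h : ∀ (G : Type) [i : Group G] (B : Set (G → ℂ)),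
      C G i B → ‖E t G B‖ ≤ 1) (G : Type) [i : Group G] (B : Set (G → ℂ)) (hB : C G i B) :
    Filter.Tendsto (fun k : ℕ => E (t ^ (2 ^ k)) G B) Filter.atTop (nhds 0) := by
  rw [← Filter.tendsto_add_atTop_iff_nat 1]
  refine squeeze_zero_norm (fun k => hE.contract hS hW h k G B hB) ?_
  have h1 : Filter.Tendsto (fun k : ℕ => ((59 : ℝ) / 60) ^ k) Filter.atTop (nhds 0) :=
    tendsto_pow_atTop_nhds_zero_of_lt_one (by norm_num) (by norm_num)
  have h2 := h1.const_mul (19 / 20 : ℝ)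
  rwa [mul_zero] at h2

/-- the weighted sums -/
theorem fam_Wt (hp2 : p ≠ 2) (hpO : (p : ℂ) ∈ O.nonunits)
    (hA : ∀ (G : Type) [i : Group G] (B : Set (G → ℂ)), C G i B → AdmB p O G B) :
    Fam C (fun z G _ B => Wt p O z B) := by
  refine ⟨fun z G _ B hB => ?_, fun z G _ B hB => ?_⟩
  · have := (hA G B hB).fin
    have := Fintype.ofFinite G
    have hb := (hA G B hB).block
    change Wt p O z (bxS B B) = Wt p O z B ^ 2
    rw [Wt_prod hb hb, pow_two]
  · have := (hA G B hB).fin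
    have := Fintype.ofFinite G
    exact Wt_wr hp2 hpO ((hA G B hB).good hpO) z

/-- the weighted sum for the reversed weights -/
def Wr' (p : ℕ) (O : ValuationSubring ℂ) (z : ℂ) (G : Type) [Group G] (B : Set (G → ℂ)) : ℂ :=
  z ^ (Nat.card G).factorization p * Wt p O z⁻¹ B

theorem fac_prod (G : Type) [Group G] [Finite G] :
    (Nat.card (G × G)).factorization p = 2 * (Nat.card G).factorization p := by
  rw [Nat.card_prod, Nat.factorization_mul Nat.card_pos.ne' Nat.card_pos.ne']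
  simp only [Finsupp.coe_add, Pi.add_apply]
  ring

theorem fam_Wr' (hp2 : p ≠ 2) (hpO : (p : ℂ) ∈ O.nonunits)
    (hA : ∀ (G : Type) [i : Group G] (B : Set (G → ℂ)), C G i B → AdmB p O G B) :
    Fam C (fun z G _ B => Wr' p O z G B) := by
  have hF := fam_Wt hp2 hpO hA
  refine ⟨fun z G _ B hB => ?_, fun z G _ B hB => ?_⟩
  · have := (hA G B hB).fin
    have h1 : Wt p O z⁻¹ (bxS B B) = Wt p O z⁻¹ B ^ 2 := hF.sq z⁻¹ G B hB
    change z ^ _ * Wt p O z⁻¹ (bxS B B) = (z ^ _ * Wt p O z⁻¹ B) ^ 2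
    rw [fac_prod, h1, mul_pow, ← pow_mul, mul_comm 2]
  · have := (hA G B hB).fin
    have h1 : 2 * Wt p O z⁻¹ (WrS B) = Wt p O z⁻¹ B ^ 2 + 3 * Wt p O (z⁻¹ ^ 2) B :=
      hF.wr z⁻¹ G B hB
    change 2 * (z ^ _ * Wt p O z⁻¹ (WrS B)) = (z ^ _ * Wt p O z⁻¹ B) ^ 2 +
      3 * ((z ^ 2) ^ _ * Wt p O (z ^ 2)⁻¹ B)
    rw [fac_wr hp2 G, mul_left_comm, h1, mul_pow, ← pow_mul, ← pow_mul, inv_pow,
      mul_comm 2 ((Nat.card G).factorization p)]
    ring

theorem eval_map_Wt {G : Type} [Group G] [Fintype G] {B : Set (G → ℂ)} (t : ℂ) :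
    ((blkP p O B).map (algebraMap ℚ ℂ)).eval t = Wt p O t B := by
  rw [Wt_eq, eval_map_algebraMap]

/-- the reversed generating function -/
def revP (p : ℕ) (O : ValuationSubring ℂ) (G : Type) [Group G] (B : Set (G → ℂ)) : ℂ[X] :=
  ∑ d ∈ Finset.range ((Nat.card G).factorization p + 1),
    Polynomial.C (blkDef p O d B : ℂ) * X ^ ((Nat.card G).factorization p - d)

theorem eval_revP {G : Type} [Group G] [Finite G] {B : Set (G → ℂ)} {z : ℂ} (hz : z ≠ 0) :
    (revP p O G B).eval z = Wr' p O z G B := by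
  unfold revP Wr'
  rw [Wt_sum, eval_finsetSum, Finset.mul_sum]
  refine Finset.sum_congr rfl fun d hd => ?_
  rw [Finset.mem_range, Nat.lt_succ_iff] at hd
  rw [eval_mul, eval_C, eval_pow, eval_X, inv_pow]
  have h1 : z ^ (Nat.card G).factorization p = z ^ ((Nat.card G).factorization p - d) * z ^ d := by
    rw [← pow_add, Nat.sub_add_cancel hd]
  rw [h1]
  field_simp

theorem of_revP {G : Type} [Group G] [Finite G] {B : Set (G → ℂ)} (h : revP p O G B = 0) (d : ℕ) :
    blkDef p O d B = 0 := by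
  by_cases hd : (Nat.card G).factorization p < d
  · exact blkDef_zero hd
  rw [not_lt] at hd
  have h1 := congrArg (fun P : ℂ[X] => P.coeff ((Nat.card G).factorization p - d)) h
  simp only [revP, finsetSum_coeff, coeff_C_mul_X_pow, coeff_zero] at h1
  have h2 : ∀ e ∈ Finset.range ((Nat.card G).factorization p + 1),
      (if (Nat.card G).factorization p - d = (Nat.card G).factorization p - e then
        (blkDef p O e B : ℂ) else 0) = if e = d then (blkDef p O e B : ℂ) else 0 := by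
    intro e he
    rw [Finset.mem_range, Nat.lt_succ_iff] at he
    have : ((Nat.card G).factorization p - d = (Nat.card G).factorization p - e) ↔ e = d := by
      omega
    simp only [this]
  rw [Finset.sum_congr rfl h2, Finset.sum_ite_eq' _ d,
    if_pos (Finset.mem_range.mpr (Nat.lt_succ_of_le hd))] at h1
  exact_mod_cast h1

/-- squares improve subpolynomial bounds, for families -/
theorem Fam.le_one {E : ℂ → (G : Type) → [Group G] → Set (G → ℂ) → ℂ} (hE : Fam C E)
    (hA : ∀ (G : Type) [i : Group G] (B : Set (G → ℂ)), C G i B → AdmB p O G B)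
    (hS : SqC C) {t : ℂ} (hs : SubP C (fun G _ B => ‖E t G B‖)) :
    ∀ (G : Type) [i : Group G] (B : Set (G → ℂ)), C G i B → ‖E t G B‖ ≤ 1 := by
  refine tensor (fun G _ B hB => (hA G B hB).fin) hS (fun G _ B => ‖E t G B‖)
    (fun G _ B hB => ?_) hs
  change ‖E t (G × G) (bxS B B)‖ = ‖E t G B‖ ^ 2
  rw [hE.sq t G B hB, norm_pow]

/-! ### odd primes -/

/-- **subpolynomial bounds for all defects** -/
theorem dade_of_sub (hp2 : p ≠ 2) (hpO : (p : ℂ) ∈ O.nonunits)
    (hA : ∀ (G : Type) [i : Group G] (B : Set (G → ℂ)), C G i B → AdmB p O G B)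
    (hS : SqC C) (hW : WrC C)
    (hs : ∀ ε : ℝ, 0 < ε → ∃ c : ℝ, ∀ (G : Type) [i : Group G] (B : Set (G → ℂ)),
      C G i B → ∀ d, (blkDef p O d B : ℝ) ≤ c * (Nat.card G : ℝ) ^ ε) :
    ∀ (G : Type) [i : Group G] (B : Set (G → ℂ)), C G i B → ∀ d, blkDef p O d B = 0 := by
  intro G _ B hB d
  have := (hA G B hB).fin
  by_cases hd : (Nat.card G).factorization p < d
  · exact blkDef_zero hd
  obtain ⟨z, hz, h1⟩ := parseval (fun d => blkDef p O d B)
    (Nat.succ_pos ((Nat.card G).factorization p))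
  rw [← Wt_sum] at h1
  obtain ⟨w, hw⟩ := IsAlgClosed.exists_pow_nat_eq z (n := 2) two_pos
  have hwn : ‖w‖ = 1 := by
    have h2 : ‖w‖ ^ 2 = 1 := by rw [← norm_pow, hw, hz]
    exact (pow_eq_one_iff_of_nonneg (norm_nonneg _) two_ne_zero).mp h2
  have h2 : ‖Wt p O (w ^ (2 ^ (0 + 1))) B‖ ≤ 19 / 20 * (59 / 60) ^ 0 :=
    (fam_Wt hp2 hpO hA).contract hS hW (Wt_le_one_of_upper hA hS hs hwn) 0 G B hB
  rw [zero_add, pow_one, hw, pow_zero, mul_one] at h2
  have h3 : ‖Wt p O z B‖ ^ 2 < 1 := pow_lt_one₀ (norm_nonneg _) (by linarith) two_ne_zero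
  have h4 : ∑ d ∈ Finset.range ((Nat.card G).factorization p + 1), blkDef p O d B ^ 2 < 1 := by
    exact_mod_cast h1.trans_lt h3
  have h5 := Finset.single_le_sum (f := fun d => blkDef p O d B ^ 2)
    (fun e _ => sq_nonneg (blkDef p O e B))
    (Finset.mem_range.mpr (Nat.lt_succ_of_le (not_lt.mp hd)))
  have h6 : blkDef p O d B ^ 2 < 1 := h5.trans_lt h4
  have h7 := sq_nonneg (blkDef p O d B)
  have h8 : blkDef p O d B ^ 2 = 0 := by omega
  exact (pow_eq_zero_iff two_ne_zero).mp h8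

/-- upper bounds for the Knörr–Robinson sums, for all primes -/
theorem kr_le_one (hA : ∀ (G : Type) [i : Group G] (B : Set (G → ℂ)), C G i B → AdmB p O G B)
    (hS : SqC C) (hs : SubP C (fun G _ B => (blkAlt p O B : ℝ))) :
    ∀ (G : Type) [i : Group G] (B : Set (G → ℂ)), C G i B → |blkAlt p O B| ≤ 1 := by
  intro G _ B hB
  have h1 := tensor (fun G _ B hB => (hA G B hB).fin) hS (fun G _ B => (blkAlt p O B : ℝ) ^ 2)
    (fun G _ B hB => by
      have := (hA G B hB).fin
      have hb := (hA G B hB).block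
      change (blkAlt p O (bxS B B) : ℝ) ^ 2 = ((blkAlt p O B : ℝ) ^ 2) ^ 2
      rw [blkAlt_sq hb]
      push_cast
      ring) (by
      intro ε hε
      obtain ⟨c, hc⟩ := hs (ε / 2) (by linarith)
      refine ⟨c, fun G _ B hB => ?_⟩
      have := (hA G B hB).fin
      have hb := (hA G B hB).block
      have hg' : (0 : ℝ) < Nat.card G := by exact_mod_cast Nat.card_pos (α := G)
      have h2 : (blkAlt p O (bxS B B) : ℝ) ≤ c * (Nat.card (G × G) : ℝ) ^ (ε / 2) :=
        hc _ _ (hS G B hB)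
      rw [blkAlt_sq hb] at h2
      change (blkAlt p O B : ℝ) ^ 2 ≤ c * (Nat.card G : ℝ) ^ ε
      have h5 : (Nat.card G : ℝ) ^ ε = (Nat.card (G × G) : ℝ) ^ (ε / 2) := by
        rw [Nat.card_prod, Nat.cast_mul, ← pow_two, ← Real.rpow_natCast,
          ← Real.rpow_mul hg'.le]
        congr 1
        push_cast
        ring
      rw [h5]
      exact_mod_cast h2) G B hB
  have h2 : blkAlt p O B ^ 2 ≤ 1 := by exact_mod_cast h1
  exact abs_le_one_iff_mul_self_le_one.mpr (by rwa [pow_two] at h2)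

/-- **an upper bound for the Knörr–Robinson sum** -/
theorem kr_of_sub (hp2 : p ≠ 2) (hpO : (p : ℂ) ∈ O.nonunits)
    (hA : ∀ (G : Type) [i : Group G] (B : Set (G → ℂ)), C G i B → AdmB p O G B)
    (hS : SqC C) (hW : WrC C) (hs : SubP C (fun G _ B => (blkAlt p O B : ℝ))) :
    ∀ (G : Type) [i : Group G] (B : Set (G → ℂ)), C G i B → blkAlt p O B = 0 := by
  intro G _ B hB
  have := (hA G B hB).fin
  have := Fintype.ofFinite G
  have h2 : ‖Wt p O (1 ^ (2 ^ (0 + 1))) B‖ ≤ 19 / 20 * (59 / 60) ^ 0 :=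
    (fam_Wt hp2 hpO hA).contract hS hW (fun G _ B hB => by
      have := (hA G B hB).fin
      have := Fintype.ofFinite G
      change ‖Wt p O 1 B‖ ≤ 1
      rw [Wt_one, Complex.norm_intCast]
      exact_mod_cast kr_le_one hA hS hs G B hB) 0 G B hB
  rw [one_pow, Wt_one, Complex.norm_intCast, pow_zero, mul_one] at h2
  have h3 : |(blkAlt p O B : ℝ)| < 1 := by linarith
  have h4 : |blkAlt p O B| < 1 := by exact_mod_cast h3
  exact Int.abs_lt_one_iff.mp h4

/-- no positive values, for all primes -/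
theorem kr_of_nonpos (hA : ∀ (G : Type) [i : Group G] (B : Set (G → ℂ)), C G i B → AdmB p O G B)
    (hS : SqC C) (h : ∀ (G : Type) [i : Group G] (B : Set (G → ℂ)), C G i B →
      blkAlt p O B ≤ 0) :
    ∀ (G : Type) [i : Group G] (B : Set (G → ℂ)), C G i B → blkAlt p O B = 0 := by
  intro G _ B hB
  have := (hA G B hB).fin
  have h1 := h _ _ (hS G B hB)
  rw [blkAlt_sq (hA G B hB).block] at h1
  exact (pow_eq_zero_iff two_ne_zero).mp (le_antisymm h1 (sq_nonneg _))

/-- no positive values, for all primes and all defects -/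
theorem dade_of_nonpos
    (hA : ∀ (G : Type) [i : Group G] (B : Set (G → ℂ)), C G i B → AdmB p O G B) (hS : SqC C)
    (h : ∀ (G : Type) [i : Group G] (B : Set (G → ℂ)), C G i B → ∀ d, blkDef p O d B ≤ 0) :
    ∀ (G : Type) [i : Group G] (B : Set (G → ℂ)), C G i B → ∀ d, blkDef p O d B = 0 := by
  have h1 := kr_of_nonpos hA hS (fun G _ B hB => by
    have := (hA G B hB).fin
    have := Fintype.ofFinite G
    have h5 := Wt_sum (p := p) (O := O) (B := B) 1
    rw [Wt_one] at h5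
    simp only [one_pow, mul_one] at h5
    have h6 : blkAlt p O B = ∑ d ∈ Finset.range ((Nat.card G).factorization p + 1),
        blkDef p O d B := by exact_mod_cast h5
    rw [h6]
    exact Finset.sum_nonpos fun d _ => h G B hB d)
  intro G _ B hB d
  have := (hA G B hB).fin
  have := Fintype.ofFinite G
  have h5 := Wt_sum (p := p) (O := O) (B := B) 1
  rw [Wt_one] at h5
  simp only [one_pow, mul_one] at h5
  have h6 : blkAlt p O B = ∑ d ∈ Finset.range ((Nat.card G).factorization p + 1),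
      blkDef p O d B := by exact_mod_cast h5
  rw [h1 G B hB] at h6
  by_cases hd : (Nat.card G).factorization p < d
  · exact blkDef_zero hd
  · exact (Finset.sum_eq_zero_iff_of_nonpos (fun d _ => h G B hB d)).mp h6.symm d
      (Finset.mem_range.mpr (Nat.lt_succ_of_le (not_lt.mp hd)))

/-- bounds by one for one weighted sum -/
theorem dade_of_unit (hp2 : p ≠ 2) (hpO : (p : ℂ) ∈ O.nonunits)
    (hA : ∀ (G : Type) [i : Group G] (B : Set (G → ℂ)), C G i B → AdmB p O G B)
    (hS : SqC C) (hW : WrC C) {t : ℂ} (ht0 : t ≠ 0) (ht : ∀ n : ℕ, 0 < n → t ^ n ≠ 1)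
    (hs : ∀ (G : Type) [i : Group G] (B : Set (G → ℂ)), C G i B →
      ‖Wt p O t B‖ ≤ min 1 ‖t‖ ^ (Nat.card G).factorization p) :
    ∀ (G : Type) [i : Group G] (B : Set (G → ℂ)), C G i B → ∀ d, blkDef p O d B = 0 := by
  by_cases h1 : 1 ≤ ‖t‖
  · have hs' : ∀ (G : Type) [i : Group G] (B : Set (G → ℂ)), C G i B → ‖Wt p O t B‖ ≤ 1 := by
      intro G _ B hB
      have h2 := hs G B hB
      rwa [min_eq_left h1, one_pow] at h2
    have hF := fam_Wt hp2 hpO hA
    intro G _ B hB d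
    have := (hA G B hB).fin
    have := Fintype.ofFinite G
    have h3 := hF.tendsto hS hW hs' G B hB
    apply blkDef_of_blkP
    rw [← Polynomial.map_eq_zero_iff (algebraMap ℚ ℂ).injective]
    refine zero_of_squares h1 ht ?_
    simp only [eval_map_Wt]
    exact h3
  · rw [not_le] at h1
    have hs' : ∀ (G : Type) [i : Group G] (B : Set (G → ℂ)), C G i B →
        ‖Wr' p O t⁻¹ G B‖ ≤ 1 := by
      intro G _ B hB
      have h2 := hs G B hB
      rw [min_eq_right h1.le] at h2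
      change ‖t⁻¹ ^ _ * Wt p O t⁻¹⁻¹ B‖ ≤ _
      rw [inv_inv, norm_mul, norm_pow, norm_inv, inv_pow]
      have h3 : 0 < ‖t‖ ^ (Nat.card G).factorization p :=
        pow_pos (norm_pos_iff.mpr ht0) _
      rwa [inv_mul_le_iff₀ h3, mul_one]
    have hF := fam_Wr' hp2 hpO hA
    intro G _ B hB d
    have := (hA G B hB).fin
    have h3 := hF.tendsto hS hW hs' G B hB
    have hti : 1 < ‖t⁻¹‖ := by
      rw [norm_inv]
      exact (one_lt_inv₀ (norm_pos_iff.mpr ht0)).mpr h1
    have ht0' : t⁻¹ ≠ 0 := inv_ne_zero ht0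
    apply of_revP
    refine zero_of_outside hti ?_
    have h4 : (fun k : ℕ => (revP p O G B).eval (t⁻¹ ^ (2 ^ k))) =
        fun k : ℕ => Wr' p O (t⁻¹ ^ (2 ^ k)) G B := by
      funext k
      exact eval_revP (pow_ne_zero _ ht0')
    rw [h4]
    exact h3

/-- bounds for the squares -/
theorem dade_of_sq (hp2 : p ≠ 2) (hpO : (p : ℂ) ∈ O.nonunits)
    (hA : ∀ (G : Type) [i : Group G] (B : Set (G → ℂ)), C G i B → AdmB p O G B)
    (hS : SqC C) (hW : WrC C) {t : ℂ} (ht0 : t ≠ 0) (ht : ∀ n : ℕ, 0 < n → t ^ n ≠ 1)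
    (hs : ∀ ε : ℝ, 0 < ε → ∃ c : ℝ, ∀ (G : Type) [i : Group G] (B : Set (G → ℂ)), C G i B →
      ‖Wt p O t B‖ ^ 2 ≤ c * (Nat.card (G × G) : ℝ) ^ ε *
        min 1 ‖t‖ ^ (Nat.card (G × G)).factorization p) :
    ∀ (G : Type) [i : Group G] (B : Set (G → ℂ)), C G i B → ∀ d, blkDef p O d B = 0 := by
  have hm : 0 < min 1 ‖t‖ := lt_min one_pos (norm_pos_iff.mpr ht0)
  refine dade_of_unit hp2 hpO hA hS hW ht0 ht fun G _ B hB => ?_
  have hm2 : 0 < min 1 ‖t‖ ^ (Nat.card G).factorization p := pow_pos hm _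
  have h1 := tensor (fun G _ B hB => (hA G B hB).fin) hS
    (fun G _ B => (‖Wt p O t B‖ / min 1 ‖t‖ ^ (Nat.card G).factorization p) ^ 2)
    (fun G _ B hB => by
      have := (hA G B hB).fin
      have := Fintype.ofFinite G
      have hb := (hA G B hB).block
      change (‖Wt p O t (bxS B B)‖ / min 1 ‖t‖ ^ (Nat.card (G × G)).factorization p) ^ 2 =
        ((‖Wt p O t B‖ / min 1 ‖t‖ ^ (Nat.card G).factorization p) ^ 2) ^ 2
      rw [Wt_prod hb hb, norm_mul, ← pow_two, fac_prod, div_pow, div_pow, ← pow_mul, ← pow_mul]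
      rw [div_pow, ← pow_mul, ← pow_mul]
      ring_nf) (by
      intro ε hε
      obtain ⟨c, hc⟩ := hs (ε / 2) (by linarith)
      refine ⟨c, fun G _ B hB => ?_⟩
      have := (hA G B hB).fin
      have hg' : (0 : ℝ) < Nat.card G := by exact_mod_cast Nat.card_pos (α := G)
      have h2 := hc G B hB
      have h5 : (Nat.card G : ℝ) ^ ε = (Nat.card (G × G) : ℝ) ^ (ε / 2) := by
        rw [Nat.card_prod, Nat.cast_mul, ← pow_two, ← Real.rpow_natCast,
          ← Real.rpow_mul hg'.le]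
        congr 1
        push_cast
        ring
      rw [← h5, fac_prod, mul_comm 2, pow_mul] at h2
      change (‖Wt p O t B‖ / min 1 ‖t‖ ^ (Nat.card G).factorization p) ^ 2 ≤ _
      rw [div_pow, div_le_iff₀ (pow_pos (pow_pos hm _) 2)]
      exact h2) G B hB
  have h2 := (pow_le_one_iff_of_nonneg (div_nonneg (norm_nonneg _) hm2.le) two_ne_zero).mp h1
  exact (div_le_one hm2).mp h2

/-- **a subpolynomial bound for one weighted sum** -/
theorem dade_of_weight (hp2 : p ≠ 2) (hpO : (p : ℂ) ∈ O.nonunits)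
    (hA : ∀ (G : Type) [i : Group G] (B : Set (G → ℂ)), C G i B → AdmB p O G B)
    (hS : SqC C) (hW : WrC C) {t : ℂ} (ht0 : t ≠ 0) (ht : ∀ n : ℕ, 0 < n → t ^ n ≠ 1)
    (hs : ∀ ε : ℝ, 0 < ε → ∃ c : ℝ, ∀ (G : Type) [i : Group G] (B : Set (G → ℂ)), C G i B →
      ‖Wt p O t B‖ ≤ c * (Nat.card G : ℝ) ^ ε * min 1 ‖t‖ ^ (Nat.card G).factorization p) :
    ∀ (G : Type) [i : Group G] (B : Set (G → ℂ)), C G i B → ∀ d, blkDef p O d B = 0 := by
  refine dade_of_sq hp2 hpO hA hS hW ht0 ht fun ε hε => ?_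
  obtain ⟨c, hc⟩ := hs ε hε
  refine ⟨c, fun G _ B hB => ?_⟩
  have := (hA G B hB).fin
  have := Fintype.ofFinite G
  have hb := (hA G B hB).block
  have h1 := hc _ _ (hS G B hB)
  rwa [Wt_prod hb hb, norm_mul, ← pow_two] at h1

/-- **an upper bound for one real weighted sum** -/
theorem dade_of_real (hp2 : p ≠ 2) (hpO : (p : ℂ) ∈ O.nonunits)
    (hA : ∀ (G : Type) [i : Group G] (B : Set (G → ℂ)), C G i B → AdmB p O G B)
    (hS : SqC C) (hW : WrC C) {t : ℝ} (ht0 : t ≠ 0) (ht1 : t ≠ 1) (ht2 : t ≠ -1)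
    (hs : ∀ ε : ℝ, 0 < ε → ∃ c : ℝ, ∀ (G : Type) [i : Group G] (B : Set (G → ℂ)), C G i B →
      (Wt p O (t : ℂ) B).re ≤
        c * (Nat.card G : ℝ) ^ ε * min 1 |t| ^ (Nat.card G).factorization p) :
    ∀ (G : Type) [i : Group G] (B : Set (G → ℂ)), C G i B → ∀ d, blkDef p O d B = 0 := by
  refine dade_of_sq hp2 hpO hA hS hW (t := (t : ℂ)) (by exact_mod_cast ht0) ?_ fun ε hε => ?_
  · intro n hn h
    have h1 : t ^ n = 1 := by exact_mod_cast h
    have h2 : |t| ^ n = 1 := by rw [← abs_pow, h1, abs_one]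
    have h3 := (pow_eq_one_iff_of_nonneg (abs_nonneg t) hn.ne').mp h2
    rcases eq_or_eq_neg_of_abs_eq h3 with h4 | h4
    · exact ht1 h4
    · exact ht2 h4
  · obtain ⟨c, hc⟩ := hs ε hε
    refine ⟨c, fun G _ B hB => ?_⟩
    have := (hA G B hB).fin
    have := Fintype.ofFinite G
    have hb := (hA G B hB).block
    have h1 := hc _ _ (hS G B hB)
    rw [Wt_prod hb hb] at h1
    have h2 : Wt p O (t : ℂ) B = ((∑ d ∈ Finset.range ((Nat.card G).factorization p + 1),
        (blkDef p O d B : ℝ) * t ^ d : ℝ) : ℂ) := by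
      rw [Wt_sum]
      push_cast
      rfl
    rw [h2] at h1 ⊢
    rw [← Complex.ofReal_mul, Complex.ofReal_re, ← pow_two] at h1
    rw [Complex.norm_real, Complex.norm_real, Real.norm_eq_abs, sq_abs, Real.norm_eq_abs]
    exact h1

/-! ### exact vanishing -/

/-- values at the squares -/
theorem Wt_levels (hp2 : p ≠ 2) (hpO : (p : ℂ) ∈ O.nonunits) (t : ℂ) : ∀ (i : ℕ) (G : Type)
    [Group G] [Finite G] (B : Set (G → ℂ)), GoodB O B →
    (∀ j ≤ i, Wt p O t (WrSN j B) = 0) → Wt p O (t ^ (2 ^ i)) B = 0 := by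
  intro i
  induction i with
  | zero =>
    intro G _ _ B _ h
    rw [pow_zero, pow_one]
    exact h 0 le_rfl
  | succ i ih =>
    intro G _ _ B hB h
    have := Fintype.ofFinite G
    have h1 := ih G B hB fun j hj => h j (by omega)
    have h2 := ih (Wr G) (WrS B) (hB.wr hp2 hpO) fun j hj => h (j + 1) (by omega)
    have h3 := Wt_wr hp2 hpO hB (t ^ (2 ^ i))
    rw [h1, h2, ← pow_mul, ← pow_succ] at h3
    have h4 : 3 * Wt p O (t ^ 2 ^ (i + 1)) B = 0 := by linear_combination -h3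
    exact (mul_eq_zero.mp h4).resolve_left (by norm_num)

/-- **one block** -/
theorem one_block (hp2 : p ≠ 2) (hpO : (p : ℂ) ∈ O.nonunits) {t : ℂ} (ht0 : t ≠ 0)
    (ht : ∀ n : ℕ, 0 < n → t ^ n ≠ 1) (G : Type) [Group G] [Finite G] (B : Set (G → ℂ))
    (hB : GoodB O B) :
    (∀ d, blkDef p O d B = 0) ↔
      ∀ j ≤ (Nat.card G).factorization p, Wt p O t (WrSN j B) = 0 := by
  have := Fintype.ofFinite G
  constructor
  · intro h j _
    have h1 := bd_levels hp2 hpO j G B hB h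
    have h2 : Finite (WrN j G) := finite_WrN j G
    have := Fintype.ofFinite (WrN j G)
    exact Wt_zero_of h1 t
  · intro h d
    apply blkDef_of_blkP
    rw [← Polynomial.map_eq_zero_iff (algebraMap ℚ ℂ).injective]
    have hn : ((blkP p O B).map (algebraMap ℚ ℂ)).natDegree <
        Fintype.card (Fin ((Nat.card G).factorization p + 1)) := by
      rw [natDegree_map, Fintype.card_fin, Nat.lt_succ_iff, natDegree_le_iff_coeff_eq_zero]
      intro d hd
      rw [blkP_coeff, blkDef_zero hd, Int.cast_zero]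
    refine Polynomial.eq_zero_of_natDegree_lt_card_of_eval_eq_zero _
      (f := fun k : Fin ((Nat.card G).factorization p + 1) => t ^ (2 ^ (k : ℕ)))
      (fun a b hab => Fin.ext (pow_inj_of ht0 ht hab)) (fun k => ?_) hn
    rw [eval_map_Wt]
    exact Wt_levels hp2 hpO t k G B hB fun j hj => h j (by omega)

/-- **classes** -/
theorem dade_of_vanish (hp2 : p ≠ 2) (hpO : (p : ℂ) ∈ O.nonunits)
    (hA : ∀ (G : Type) [i : Group G] (B : Set (G → ℂ)), C G i B → AdmB p O G B)
    (hW : WrC C) {t : ℂ} (ht0 : t ≠ 0) (ht : ∀ n : ℕ, 0 < n → t ^ n ≠ 1)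
    (h : ∀ (G : Type) [i : Group G] (B : Set (G → ℂ)), C G i B → Wt p O t B = 0) :
    ∀ (G : Type) [i : Group G] (B : Set (G → ℂ)), C G i B → ∀ d, blkDef p O d B = 0 := by
  have hN : ∀ (j : ℕ) (G : Type) [i : Group G] (B : Set (G → ℂ)), C G i B →
      C (WrN j G) inferInstance (WrSN j B) := by
    intro j
    induction j with
    | zero => exact fun G _ B h => h
    | succ j ih => exact fun G _ B h => ih (Wr G) (WrS B) (hW G B h)
  intro G _ B hB
  have := (hA G B hB).fin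
  exact (one_block hp2 hpO ht0 ht G B ((hA G B hB).good hpO)).mpr fun j _ =>
    h (WrN j G) (WrSN j B) (hN j G B hB)

end

end Pool.Agent.N22.DD
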