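import Pool.Agent.N22.DD.Blp
import Pool.Agent.N22.DD.Anl
import Pool.Agent.Q90.WR.Krq

/-!
# The Knörr–Robinson sum for direct products
-/

set_option autoImplicit false
set_option linter.unusedSectionVars false

open scoped BigOperators Classical

noncomputable section

namespace Pool.Agent.N22.DD

open Pool.Agent.Y63.KR Pool.Agent.Q90.WR Polynomial
open Pool.Agent.Y63.AWC (numDefectZero)

theorem card_classes_prod (H K : Type) [Group H] [Group K] [Finite H] [Finite K] :
    Nat.card (ConjClasses (H × K)) = Nat.card (ConjClasses H) * Nat.card (ConjClasses K) := by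
  have h := commProb_prod (M := H) K
  rw [commProb_def', commProb_def', commProb_def', Nat.card_prod, div_mul_div_comm] at h
  have h1 : ((Nat.card H * Nat.card K : ℕ) : ℚ) ≠ 0 := by
    have : 0 < Nat.card H * Nat.card K := Nat.mul_pos Nat.card_pos Nat.card_pos
    exact_mod_cast this.ne'
  rw [← Nat.cast_mul, ← Nat.cast_mul] at h
  rw [div_left_inj' h1] at h
  exact_mod_cast h

theorem classes_congr {H K : Type} [Group H] [Group K] (e : H ≃* K) :
    Nat.card (ConjClasses H) = Nat.card (ConjClasses K) := by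
  refine Nat.card_congr ⟨ConjClasses.map e.toMonoidHom, ConjClasses.map e.symm.toMonoidHom, ?_, ?_⟩
  · intro c
    induction c using Quotient.inductionOn with
    | _ x =>
      change ConjClasses.mk (e.symm (e x)) = ConjClasses.mk x
      rw [e.symm_apply_apply]
  · intro c
    induction c using Quotient.inductionOn with
    | _ x =>
      change ConjClasses.mk (e (e.symm x)) = ConjClasses.mk x
      rw [e.apply_symm_apply]

theorem card_mul_altK' {p : ℕ} (G : Type) [Group G] [Finite G] :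
    (Nat.card G : ℤ) * altK p G =
      wsumS p (fun H : Subgroup G => (Nat.card (ConjClasses H) : ℤ)) := by
  unfold altK wsumS
  exact card_mul_alternatingSum' (p := p) (G := G) (fun H => (Nat.card (ConjClasses H) : ℤ))
    fun g H => by rw [classes_congr (conjEquiv g H).symm]

/-- the alternating sum of the class numbers is multiplicative -/
theorem altK_prod {p : ℕ} [hp : Fact p.Prime] (G K : Type) [Group G] [Group K] [Finite G] [Finite K] :
    altK p (G × K) = altK p G * altK p K := by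
  have := Fintype.ofFinite G
  have := Fintype.ofFinite K
  have h := card_mul_altK' (p := p) (G × K)
  rw [wsumS_prod (p := p) (fun H : Subgroup G => (Nat.card (ConjClasses H) : ℤ))
    (fun H : Subgroup K => (Nat.card (ConjClasses H) : ℤ))
    (fun H : Subgroup (G × K) => (Nat.card (ConjClasses H) : ℤ)) (fun H L => by
      rw [classes_congr (Subgroup.prodEquiv H L), card_classes_prod]
      push_cast
      rfl), ← card_mul_altK', ← card_mul_altK', Nat.card_prod] at h
  have h1 : (Nat.card G : ℤ) * (Nat.card K : ℤ) ≠ 0 := by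
    have : 0 < Nat.card G * Nat.card K := Nat.mul_pos Nat.card_pos Nat.card_pos
    exact_mod_cast this.ne'
  apply mul_left_cancel₀ h1
  push_cast at h
  linear_combination h

theorem numDef_zero (p : ℕ) (G : Type) [Group G] : numDef p 0 G = numDefectZero p G := by
  unfold numDef numDefectZero
  simp only [add_zero]

/-- the number of characters of defect zero is multiplicative -/
theorem defectZero_prod (p : ℕ) (G K : Type) [Group G] [Group K] [Finite G] [Finite K] :
    numDefectZero p (G × K) = numDefectZero p G * numDefectZero p K := by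
  have h := congrArg (fun P : ℚ[X] => P.coeff 0) (dpoly_prod p G K)
  simp only [mul_coeff_zero, dpoly_coeff, numDef_zero] at h
  exact_mod_cast h

/-- powers of an integer which are nearly bounded by those of another one -/
theorem near_le {x y : ℤ} (hx : 0 ≤ x) (hy : 0 ≤ y) {g : ℝ} (hg : 0 < g)
    (h : ∀ ε : ℝ, 0 < ε → ∃ c : ℝ, ∀ k : ℕ, ((x ^ 2 ^ (k + 1) - y ^ 2 ^ (k + 1) : ℤ) : ℝ) ≤
      c * (g ^ ε) ^ 2 ^ (k + 1)) : x ≤ max y 1 := by
  by_contra hcon
  rw [not_le, max_lt_iff] at hcon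
  obtain ⟨h1, h2⟩ := hcon
  have key : ∀ k : ℕ, x ^ (2 ^ (k + 1)) ≤ x * (x ^ 2 ^ (k + 1) - y ^ 2 ^ (k + 1)) := by
    intro k
    obtain ⟨n, hn⟩ : ∃ n, 2 ^ (k + 1) = n + 1 :=
      ⟨2 ^ (k + 1) - 1, by have := Nat.one_le_two_pow (n := k + 1); omega⟩
    rw [hn]
    have e3 : y ^ (n + 1) ≤ (x - 1) * x ^ n := by
      rw [pow_succ, mul_comm]
      exact mul_le_mul (by omega) (pow_le_pow_left₀ hy (by omega) n) (pow_nonneg hy _) (by omega)
    have e4 : x ^ n ≤ x ^ (n + 1) - y ^ (n + 1) := by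
      have : x ^ (n + 1) = x * x ^ n := by rw [pow_succ]; ring
      rw [this]
      linarith
    calc x ^ (n + 1) = x * x ^ n := by rw [pow_succ]; ring
      _ ≤ x * (x ^ (n + 1) - y ^ (n + 1)) := mul_le_mul_of_nonneg_left e4 (by omega)
  have hxle : (x : ℝ) ≤ 1 := by
    refine le_one_of_rpow hg fun ε hε => ?_
    obtain ⟨c, hc⟩ := h ε hε
    have hgε : 0 < g ^ ε := Real.rpow_pos_of_pos hg ε
    have hc' : ∀ k : ℕ, ((x : ℝ) ^ 2) ^ (2 ^ k) ≤ ((x : ℝ) * c) * ((g ^ ε) ^ 2) ^ (2 ^ k) := by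
      intro k
      have h3 : ((x : ℝ)) ^ (2 ^ (k + 1)) ≤
          (x : ℝ) * ((x ^ 2 ^ (k + 1) - y ^ 2 ^ (k + 1) : ℤ) : ℝ) := by
        exact_mod_cast key k
      have h4 := hc k
      have h5 : (0 : ℝ) ≤ (x : ℝ) := by exact_mod_cast hx
      rw [← pow_mul, ← pow_mul]
      have h6 : 2 * 2 ^ k = 2 ^ (k + 1) := by rw [pow_succ]; ring
      rw [h6]
      refine h3.trans ?_
      have h7 := mul_le_mul_of_nonneg_left h4 h5
      rw [← mul_assoc] at h7
      exact h7
    have h3 := le_of_powers (pow_pos hgε 2) hc'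
    exact le_of_sq_le_sq h3 hgε.le
  have : x ≤ 1 := by exact_mod_cast hxle
  omega

theorem abs_pow_succ (a : ℤ) (k : ℕ) : |a| ^ 2 ^ (k + 1) = a ^ 2 ^ (k + 1) := by
  rw [pow_succ, mul_comm, pow_mul, pow_mul, sq_abs]

section classes

variable {p : ℕ} [hp : Fact p.Prime] {X : (H : Type) → [Group H] → Prop}

/-- upper bounds for squares -/
theorem diff_up (hS : ∀ (H : Type) [Group H] [Finite H], X H → X (H × H)) {ε c : ℝ}
    (h : ∀ (H : Type) [Group H] [Finite H], X H →
      ((altK p H - numDefectZero p H : ℤ) : ℝ) ≤ c * (Nat.card H : ℝ) ^ ε) :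
    ∀ (k : ℕ) (H : Type) [Group H] [Finite H], X H →
      ((altK p H ^ 2 ^ k - (numDefectZero p H : ℤ) ^ 2 ^ k : ℤ) : ℝ) ≤
        c * ((Nat.card H : ℝ) ^ ε) ^ 2 ^ k := by
  intro k
  induction k with
  | zero =>
    intro H _ _ hX
    simp only [pow_zero, pow_one]
    exact h H hX
  | succ k ih =>
    intro H _ _ hX
    have h1 := ih (H × H) (hS H hX)
    rw [altK_prod, defectZero_prod, Nat.card_prod, Nat.cast_mul (Nat.card H),
      Real.mul_rpow (Nat.cast_nonneg _) (Nat.cast_nonneg _), Nat.cast_mul (numDefectZero p H),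
      ← pow_two, ← pow_two, ← pow_two, ← pow_mul, ← pow_mul, ← pow_mul] at h1
    rw [pow_succ, mul_comm (2 ^ k) 2]
    exact h1

/-- lower bounds for squares -/
theorem diff_down (hS : ∀ (H : Type) [Group H] [Finite H], X H → X (H × H)) {ε c : ℝ}
    (h : ∀ (H : Type) [Group H] [Finite H], X H →
      ((numDefectZero p H - altK p H : ℤ) : ℝ) ≤ c * (Nat.card H : ℝ) ^ ε) :
    ∀ (k : ℕ) (H : Type) [Group H] [Finite H], X H →
      (((numDefectZero p H : ℤ) ^ 2 ^ k - altK p H ^ 2 ^ k : ℤ) : ℝ) ≤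
        c * ((Nat.card H : ℝ) ^ ε) ^ 2 ^ k := by
  intro k
  induction k with
  | zero =>
    intro H _ _ hX
    simp only [pow_zero, pow_one]
    exact h H hX
  | succ k ih =>
    intro H _ _ hX
    have h1 := ih (H × H) (hS H hX)
    rw [altK_prod, defectZero_prod, Nat.card_prod, Nat.cast_mul (Nat.card H),
      Real.mul_rpow (Nat.cast_nonneg _) (Nat.cast_nonneg _), Nat.cast_mul (numDefectZero p H),
      ← pow_two, ← pow_two, ← pow_two, ← pow_mul, ← pow_mul, ← pow_mul] at h1
    rw [pow_succ, mul_comm (2 ^ k) 2]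
    exact h1

/-- **upper bounds, all primes** -/
theorem up_of_sub (hS : ∀ (H : Type) [Group H] [Finite H], X H → X (H × H))
    (h : ∀ ε : ℝ, 0 < ε → ∃ c : ℝ, ∀ (H : Type) [Group H] [Finite H], X H →
      ((altK p H - numDefectZero p H : ℤ) : ℝ) ≤ c * (Nat.card H : ℝ) ^ ε)
    (G : Type) [Group G] [Finite G] (hG : X G) :
    |altK p G| ≤ max (numDefectZero p G : ℤ) 1 := by
  have hg : (0 : ℝ) < Nat.card G := by exact_mod_cast Nat.card_pos (α := G)
  refine near_le (abs_nonneg _) (by positivity) hg fun ε hε => ?_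
  obtain ⟨c, hc⟩ := h ε hε
  refine ⟨c, fun k => ?_⟩
  rw [abs_pow_succ]
  exact diff_up hS hc (k + 1) G hG

/-- **lower bounds, all primes** -/
theorem down_of_sub (hS : ∀ (H : Type) [Group H] [Finite H], X H → X (H × H))
    (h : ∀ ε : ℝ, 0 < ε → ∃ c : ℝ, ∀ (H : Type) [Group H] [Finite H], X H →
      ((numDefectZero p H - altK p H : ℤ) : ℝ) ≤ c * (Nat.card H : ℝ) ^ ε)
    (G : Type) [Group G] [Finite G] (hG : X G) :
    (numDefectZero p G : ℤ) ≤ max |altK p G| 1 := by
  have hg : (0 : ℝ) < Nat.card G := by exact_mod_cast Nat.card_pos (α := G)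
  refine near_le (by positivity) (abs_nonneg _) hg fun ε hε => ?_
  obtain ⟨c, hc⟩ := h ε hε
  refine ⟨c, fun k => ?_⟩
  rw [abs_pow_succ]
  exact diff_down hS hc (k + 1) G hG

/-- **all primes** -/
theorem near_of_sub (hS : ∀ (H : Type) [Group H] [Finite H], X H → X (H × H))
    (h : ∀ ε : ℝ, 0 < ε → ∃ c : ℝ, ∀ (H : Type) [Group H] [Finite H], X H →
      |((altK p H - numDefectZero p H : ℤ) : ℝ)| ≤ c * (Nat.card H : ℝ) ^ ε)
    (G : Type) [Group G] [Finite G] (hG : X G) :
    |altK p G| = numDefectZero p G ∨ (|altK p G| ≤ 1 ∧ numDefectZero p G ≤ 1) := by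
  have h1 := up_of_sub (p := p) hS (fun ε hε => by
    obtain ⟨c, hc⟩ := h ε hε
    exact ⟨c, fun H _ _ hX => (le_abs_self _).trans (hc H hX)⟩) G hG
  have h2 := down_of_sub (p := p) hS (fun ε hε => by
    obtain ⟨c, hc⟩ := h ε hε
    refine ⟨c, fun H _ _ hX => ?_⟩
    refine le_trans ?_ (hc H hX)
    have h3 := neg_le_abs ((altK p H - numDefectZero p H : ℤ) : ℝ)
    push_cast at h3 ⊢
    linarith) G hG
  rw [le_max_iff] at h1 h2
  have h3 := abs_nonneg (altK p G)
  omega

/-- differences for products -/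
theorem diff_prod (hP : ∀ (H L : Type) [Group H] [Group L] [Finite H] [Finite L], X H → X L →
      X (H × L)) {ε c : ℝ}
    (h : ∀ (H : Type) [Group H] [Finite H], X H →
      |((altK p H - numDefectZero p H : ℤ) : ℝ)| ≤ c * (Nat.card H : ℝ) ^ ε) :
    ∀ (k : ℕ) (H L : Type) [Group H] [Group L] [Finite H] [Finite L], X H → X L →
      |((altK p H ^ 2 ^ k * altK p L -
        (numDefectZero p H : ℤ) ^ 2 ^ k * (numDefectZero p L : ℤ) : ℤ) : ℝ)| ≤
        c * (((Nat.card H : ℝ) ^ ε) ^ 2 ^ k * (Nat.card L : ℝ) ^ ε) := by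
  intro k
  induction k with
  | zero =>
    intro H L _ _ _ _ hX hL
    have h1 := h (H × L) (hP H L hX hL)
    rw [altK_prod, defectZero_prod, Nat.card_prod, Nat.cast_mul (Nat.card H),
      Real.mul_rpow (Nat.cast_nonneg _) (Nat.cast_nonneg _), Nat.cast_mul (numDefectZero p H)] at h1
    simp only [pow_zero, pow_one]
    exact h1
  | succ k ih =>
    intro H L _ _ _ _ hX hL
    have h1 := ih (H × H) L (hP H H hX hX) hL
    rw [altK_prod, defectZero_prod, Nat.card_prod, Nat.cast_mul (Nat.card H),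
      Real.mul_rpow (Nat.cast_nonneg _) (Nat.cast_nonneg _), Nat.cast_mul (numDefectZero p H),
      ← pow_two, ← pow_two, ← pow_two, ← pow_mul, ← pow_mul, ← pow_mul] at h1
    rw [pow_succ, mul_comm (2 ^ k) 2]
    exact h1

/-- **all primes, classes closed under products** -/
theorem near_of_sub_prod (hP : ∀ (H L : Type) [Group H] [Group L] [Finite H] [Finite L],
      X H → X L → X (H × L))
    (h : ∀ ε : ℝ, 0 < ε → ∃ c : ℝ, ∀ (H : Type) [Group H] [Finite H], X H →
      |((altK p H - numDefectZero p H : ℤ) : ℝ)| ≤ c * (Nat.card H : ℝ) ^ ε)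
    (G : Type) [Group G] [Finite G] (hG : X G) :
    altK p G = numDefectZero p G ∨ (|altK p G| ≤ 1 ∧ numDefectZero p G ≤ 1) := by
  have hg : (0 : ℝ) < Nat.card G := by exact_mod_cast Nat.card_pos (α := G)
  rcases near_of_sub (p := p) (fun H _ _ hX => hP H H hX hX) h G hG with h1 | h1
  swap
  · exact Or.inr h1
  by_contra hcon
  rw [not_or] at hcon
  obtain ⟨hc1, hc2⟩ := hcon
  have ha : altK p G = -(numDefectZero p G : ℤ) := by
    rcases abs_cases (altK p G) with ⟨e1, e2⟩ | ⟨e1, e2⟩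
    · exact absurd (by rw [← h1, e1]) hc1
    · omega
  have hz2 : (2 : ℤ) ≤ numDefectZero p G := by
    by_contra hlt
    apply hc2
    refine ⟨by rw [h1]; omega, ?_⟩
    have : (numDefectZero p G : ℤ) ≤ 1 := by omega
    exact_mod_cast this
  set z : ℤ := (numDefectZero p G : ℤ) with hz
  have hzr : (0 : ℝ) ≤ (z : ℝ) := by
    have : (0 : ℤ) ≤ z := by omega
    exact_mod_cast this
  have hle : (z : ℝ) ≤ 1 := by
    refine le_one_of_rpow hg fun ε hε => ?_
    obtain ⟨c, hc⟩ := h ε hε
    have hgε : 0 < (Nat.card G : ℝ) ^ ε := Real.rpow_pos_of_pos hg ε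
    have hc' : ∀ k : ℕ, ((z : ℝ) ^ 2) ^ (2 ^ k) ≤
        (c * (Nat.card G : ℝ) ^ ε) * (((Nat.card G : ℝ) ^ ε) ^ 2) ^ (2 ^ k) := by
      intro k
      have h3 := diff_prod hP hc (k + 1) G G hG hG
      rw [ha] at h3
      have e1 : (-z) ^ 2 ^ (k + 1) = z ^ 2 ^ (k + 1) := by
        rw [pow_succ, mul_comm, pow_mul, pow_mul, neg_sq]
      have e2 : |(((-z) ^ 2 ^ (k + 1) * (-z) - z ^ 2 ^ (k + 1) * z : ℤ) : ℝ)| =
          2 * (z : ℝ) * (z : ℝ) ^ 2 ^ (k + 1) := by
        rw [e1]
        push_cast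
        have e3 : (z : ℝ) ^ 2 ^ (k + 1) * -(z : ℝ) - (z : ℝ) ^ 2 ^ (k + 1) * (z : ℝ) =
            -(2 * (z : ℝ) * (z : ℝ) ^ 2 ^ (k + 1)) := by ring
        rw [e3, abs_neg, abs_of_nonneg]
        positivity
      rw [e2] at h3
      rw [← pow_mul, ← pow_mul]
      have h6 : 2 * 2 ^ k = 2 ^ (k + 1) := by rw [pow_succ]; ring
      rw [h6]
      have h7 : (1 : ℝ) ≤ 2 * (z : ℝ) := by
        have : (2 : ℝ) ≤ (z : ℝ) := by exact_mod_cast hz2
        linarith
      have h8 : (0 : ℝ) ≤ (z : ℝ) ^ 2 ^ (k + 1) := by positivity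
      calc (z : ℝ) ^ 2 ^ (k + 1) = 1 * (z : ℝ) ^ 2 ^ (k + 1) := (one_mul _).symm
        _ ≤ 2 * (z : ℝ) * (z : ℝ) ^ 2 ^ (k + 1) := mul_le_mul_of_nonneg_right h7 h8
        _ ≤ _ := h3
        _ = _ := by ring
    have h3 := le_of_powers (pow_pos hgε 2) hc'
    exact le_of_sq_le_sq h3 hgε.le
  have : z ≤ 1 := by exact_mod_cast hle
  omega

/-- **upper bounds, odd primes** -/
theorem up_of_sub_odd (hp2 : p ≠ 2) (hS : ∀ (H : Type) [Group H] [Finite H], X H → X (H × H))
    (hW : ∀ (H : Type) [Group H] [Finite H], X H → X (Wr H))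
    (h : ∀ ε : ℝ, 0 < ε → ∃ c : ℝ, ∀ (H : Type) [Group H] [Finite H], X H →
      ((altK p H - numDefectZero p H : ℤ) : ℝ) ≤ c * (Nat.card H : ℝ) ^ ε)
    (G : Type) [Group G] [Finite G] (hG : X G) : |altK p G| ≤ numDefectZero p G := by
  have := Fintype.ofFinite G
  have := Fintype.ofFinite (G × G)
  have a1 := up_of_sub hS h G hG
  rw [le_max_iff] at a1
  rcases a1 with a1 | a1
  · exact a1
  by_contra hcon
  rw [not_le] at hcon
  have hz : (numDefectZero p G : ℤ) = 0 := by omega
  have ha : altK p G = 1 ∨ altK p G = -1 := by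
    rw [abs_le] at a1
    rw [hz] at hcon
    have h3 := abs_pos.mp hcon
    omega
  have hsq : altK p G * altK p G = 1 := by
    rcases ha with ha | ha
    · rw [ha]; norm_num
    · rw [ha]; norm_num
  have a3 := up_of_sub hS h (Wr (G × G)) (hW _ (hS G hG))
  have c1 := altK_wr (G := G × G) hp2
  have c2 := defectZero_wr (G := G × G) hp2
  rw [altK_prod, hsq] at c1
  rw [defectZero_prod] at c2
  push_cast at c2
  rw [hz] at c2
  have e1 : altK p (Wr (G × G)) = 2 := by linarith
  have e2 : (numDefectZero p (Wr (G × G)) : ℤ) = 0 := by linarith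
  rw [e1, e2] at a3
  norm_num at a3

/-- **odd primes** -/
theorem krc_of_sub (hp2 : p ≠ 2) (hS : ∀ (H : Type) [Group H] [Finite H], X H → X (H × H))
    (hW : ∀ (H : Type) [Group H] [Finite H], X H → X (Wr H))
    (h : ∀ ε : ℝ, 0 < ε → ∃ c : ℝ, ∀ (H : Type) [Group H] [Finite H], X H →
      |((altK p H - numDefectZero p H : ℤ) : ℝ)| ≤ c * (Nat.card H : ℝ) ^ ε)
    (G : Type) [Group G] [Finite G] (hG : X G) : altK p G = numDefectZero p G := by
  have := Fintype.ofFinite G
  have := Fintype.ofFinite (G × G)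
  have a1 := near_of_sub hS h G hG
  have a2 := near_of_sub hS h (Wr G) (hW G hG)
  have a3 := near_of_sub hS h (Wr (G × G)) (hW _ (hS G hG))
  have b1 := altK_wr (G := G) hp2
  have b2 := defectZero_wr (G := G) hp2
  have c1 := altK_wr (G := G × G) hp2
  have c2 := defectZero_wr (G := G × G) hp2
  rw [altK_prod] at c1
  rw [defectZero_prod] at c2
  push_cast at c2
  set a := altK p G with ha
  set z : ℤ := (numDefectZero p G : ℤ) with hz
  have hz0 : 0 ≤ z := by rw [hz]; positivity
  set a' := altK p (Wr G) with ha'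
  set z' : ℤ := (numDefectZero p (Wr G) : ℤ) with hz'
  set a'' := altK p (Wr (G × G)) with ha''
  set z'' : ℤ := (numDefectZero p (Wr (G × G)) : ℤ) with hz''
  have hz1 : (numDefectZero p G ≤ 1) ↔ z ≤ 1 := by rw [hz]; norm_cast
  have hz2 : (numDefectZero p (Wr G) ≤ 1) ↔ z' ≤ 1 := by rw [hz']; norm_cast
  have hz3 : (numDefectZero p (Wr (G × G)) ≤ 1) ↔ z'' ≤ 1 := by rw [hz'']; norm_cast
  rw [hz1] at a1
  rw [hz2] at a2
  rw [hz3] at a3
  by_contra hne
  rcases a1 with a1 | ⟨a1, a1'⟩
  · rcases abs_cases a with ⟨e1, e2⟩ | ⟨e1, e2⟩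
    · exact hne (by rw [← a1, e1])
    · -- `a = -z`, `z > 0`
      have e3 : a = -z := by omega
      have e4 : 0 < z := by omega
      rw [e3] at b1
      have e5 : 2 * a' = z * z - 3 * z := by linear_combination b1
      have e6 : 2 * z' = z * z + 3 * z := by linear_combination b2
      have e7 : z' = a' + 3 * z := by linarith
      have e8 : 0 < z * z := mul_pos e4 e4
      rcases a2 with a2 | ⟨a2, a2'⟩
      · rcases abs_cases a' with ⟨f1, f2⟩ | ⟨f1, f2⟩
        · omega
        · have : z * z = 0 := by omega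
          omega
      · nlinarith
  · -- small values
    have e1 : z = 0 ∨ z = 1 := by omega
    rw [abs_le] at a1
    have e2 : a = -1 ∨ a = 0 ∨ a = 1 := by omega
    rcases e1 with e1 | e1
    · rcases e2 with e2 | e2 | e2
      · -- `(-1, 0)`
        rw [e2] at c1
        rw [e1] at c2
        have e3 : a'' = 2 := by linarith
        have e4 : z'' = 0 := by linarith
        rw [e3, e4] at a3
        rcases a3 with a3 | ⟨a3, _⟩
        · norm_num at a3
        · norm_num at a3
      · exact hne (by rw [e2, e1])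
      · rw [e2] at b1
        rw [e1] at b2
        have e3 : a' = 2 := by linarith
        have e4 : z' = 0 := by linarith
        rw [e3, e4] at a2
        rcases a2 with a2 | ⟨a2, _⟩
        · norm_num at a2
        · norm_num at a2
    · rw [e1] at b2
      have e4 : z' = 2 := by linarith
      rcases e2 with e2 | e2 | e2
      · rw [e2] at b1
        have e3 : a' = -1 := by linarith
        rw [e3, e4] at a2
        rcases a2 with a2 | ⟨_, a2⟩
        · norm_num at a2
        · norm_num at a2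
      · rw [e2] at b1
        have e3 : a' = 0 := by linarith
        rw [e3, e4] at a2
        rcases a2 with a2 | ⟨_, a2⟩
        · norm_num at a2
        · norm_num at a2
      · exact hne (by rw [e2, e1])

end classes

end Pool.Agent.N22.DD
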