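import Pool.Agent.N22.DD.Blp

/-!
# Weighted alternating sums
-/

set_option autoImplicit false
set_option linter.unusedSectionVars false

open scoped BigOperators Classical

noncomputable section

namespace Pool.Agent.N22.DD

open Pool.Agent.Y63.KR Pool.Agent.Q90.WR Pool.Agent.Q259.BW Pool.Agent.H254R3.IN Polynomial
open Pool.Agent.Helper884.IC (Irr)

/-- The sum of `t ^ d(θ)` over the irreducible characters `θ` of the subgroup `H` of `G` with
`bl(θ)^G = B`; `d(θ)` is the `p`-defect. -/
def wIrr (p : ℕ) (O : ValuationSubring ℂ) (t : ℂ) {G : Type} [Group G] (B : Set (G → ℂ))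
    (H : Subgroup G) : ℂ :=
  ∑ᶠ θ ∈ IndS O B (Subtype.val : H → G), t ^ dfn p θ

/-- The alternating sum `∑_σ (-1)^|σ| ∑_θ t^d(θ)` over representatives `σ` of the `G`-classes of
chains of nontrivial `p`-subgroups of `G`, the empty chain included, and over the irreducible
characters `θ` of `G_σ` with `bl(θ)^G = B`. -/
def Wt (p : ℕ) (O : ValuationSubring ℂ) (t : ℂ) {G : Type} [Group G] (B : Set (G → ℂ)) : ℂ :=
  ∑ᶠ c : Quotient (chainSetoid p G), (-1) ^ c.out.1.ncard * wIrr p O t B (chainStabilizer c.out.1)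

section

variable {p : ℕ} [hp : Fact p.Prime] {O : ValuationSubring ℂ} {G : Type} [Group G]
  {B : Set (G → ℂ)}

theorem fac_sub [Finite G] (H : Subgroup G) :
    (Nat.card H).factorization p ≤ (Nat.card G).factorization p :=
  (Nat.factorization_le_iff_dvd Nat.card_pos.ne' Nat.card_pos.ne').mpr H.card_subgroup_dvd_card p

theorem bw_coeff_zero [Finite G] (H : Subgroup G) {d : ℕ} (hd : (Nat.card G).factorization p < d) :
    (bw p O B H).coeff d = 0 := by
  rw [bw_coeff]
  have : IsEmpty {θ : H → ℂ // θ ∈ IndS O B (Subtype.val : H → G) ∧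
      ∃ n : ℕ, θ 1 = (n : ℂ) ∧ n.factorization p + d = (Nat.card H).factorization p} := by
    constructor
    rintro ⟨χ, _, n, _, h2⟩
    have := fac_sub (p := p) H
    omega
  unfold anum
  rw [Nat.card_of_isEmpty, Nat.cast_zero]

theorem blkDef_zero [Finite G] {d : ℕ} (hd : (Nat.card G).factorization p < d) :
    blkDef p O d B = 0 := by
  unfold blkDef alternatingSum
  have h : ∀ H : Subgroup G, (anum p d (IndS O B (Subtype.val : H → G)) : ℤ) = 0 := by
    intro H
    have h1 := bw_coeff_zero (O := O) (B := B) H hd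
    rw [bw_coeff] at h1
    exact_mod_cast h1
  simp only [h, mul_zero, finsum_zero]

theorem aeval_bw [Finite G] (t : ℂ) (H : Subgroup G) :
    aeval t (bw p O B H) = ∑ d ∈ Finset.range ((Nat.card G).factorization p + 1),
      (anum p d (IndS O B (Subtype.val : H → G)) : ℂ) * t ^ d := by
  have hn : (bw p O B H).natDegree < (Nat.card G).factorization p + 1 := by
    rw [Nat.lt_succ_iff, natDegree_le_iff_coeff_eq_zero]
    exact fun d hd => bw_coeff_zero H hd
  rw [aeval_eq_sum_range' hn]
  refine Finset.sum_congr rfl fun d _ => ?_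
  rw [bw_coeff, Rat.smul_def]
  push_cast
  rfl

theorem wIrr_eq [Finite G] (t : ℂ) (H : Subgroup G) :
    wIrr p O t B H = aeval t (bw p O B H) := by
  have := Fintype.ofFinite H
  have h1 : bw p O B H = ∑ χ ∈ (Irr H).filter (· ∈ IndS O B (Subtype.val : H → G)),
      X ^ dfn p χ := apoly_sum IndS_irr
  rw [h1, map_sum]
  simp only [map_pow, aeval_X]
  unfold wIrr
  rw [← finsum_mem_coe_finset]
  refine finsum_mem_congr ?_ fun _ _ => rfl
  ext θ
  simp only [Finset.coe_filter, Set.mem_ofPred_eq, Helper884.IC.mem_Irr]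
  exact ⟨fun h => ⟨h.1, h⟩, fun h => h.2⟩

variable [Fintype G]

theorem aeval_blkP (t : ℂ) :
    aeval t (blkP p O B) = ∑ d ∈ Finset.range ((Nat.card G).factorization p + 1),
      (blkDef p O d B : ℂ) * t ^ d := by
  have hn : (blkP p O B).natDegree < (Nat.card G).factorization p + 1 := by
    rw [Nat.lt_succ_iff, natDegree_le_iff_coeff_eq_zero]
    intro d hd
    rw [blkP_coeff, blkDef_zero hd, Int.cast_zero]
  rw [aeval_eq_sum_range' hn]
  refine Finset.sum_congr rfl fun d _ => ?_
  rw [blkP_coeff, Rat.smul_def]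
  push_cast
  rfl

/-- the weighted sum is the value of the generating function -/
theorem Wt_eq (t : ℂ) : Wt p O t B = aeval t (blkP p O B) := by
  have : Fintype (Quotient (chainSetoid p G)) := Fintype.ofFinite _
  rw [aeval_blkP]
  unfold Wt blkDef alternatingSum
  rw [finsum_eq_sum_of_fintype]
  simp only [wIrr_eq, aeval_bw, finsum_eq_sum_of_fintype]
  push_cast
  simp_rw [Finset.mul_sum, Finset.sum_mul]
  rw [Finset.sum_comm]
  refine Finset.sum_congr rfl fun d _ => Finset.sum_congr rfl fun c _ => ?_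
  ring

theorem Wt_one : Wt p O 1 B = (blkAlt p O B : ℂ) := by
  rw [Wt_eq]
  have h := congrArg (algebraMap ℚ ℂ) (blkP_eval (p := p) (O := O) (B := B))
  rw [← coe_aeval_eq_eval] at h
  have h2 : aeval (1 : ℂ) (blkP p O B) = algebraMap ℚ ℂ (aeval (1 : ℚ) (blkP p O B)) := by
    rw [← aeval_algebraMap_apply, map_one]
  rw [h2]
  refine h.trans ?_
  simp

/-- all coefficients vanish if the generating function does -/
theorem blkDef_of_blkP (h : blkP p O B = 0) (d : ℕ) : blkDef p O d B = 0 := by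
  have h1 := blkP_coeff (p := p) (O := O) (B := B) d
  rw [h, coeff_zero] at h1
  exact_mod_cast h1.symm

theorem blkP_of_blkDef (h : ∀ d, blkDef p O d B = 0) : blkP p O B = 0 := by
  ext d
  rw [blkP_coeff, h d, coeff_zero, Int.cast_zero]

theorem Wt_zero_of (h : ∀ d, blkDef p O d B = 0) (t : ℂ) : Wt p O t B = 0 := by
  rw [Wt_eq, blkP_of_blkDef h, map_zero]

theorem blkAlt_of (h : ∀ d, blkDef p O d B = 0) : blkAlt p O B = 0 := by
  have h1 := Wt_zero_of h 1
  rw [Wt_one] at h1
  exact_mod_cast h1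

/-- the recursion for wreath products -/
theorem Wt_wr (hp2 : p ≠ 2) (hpO : (p : ℂ) ∈ O.nonunits) (hB : GoodB O B) (t : ℂ) :
    2 * Wt p O t (WrS B) = Wt p O t B ^ 2 + 3 * Wt p O (t ^ 2) B := by
  have h := congrArg (aeval t) (blkP_wr (p := p) (G := G) hp2 hpO (half_mem hp2 hpO) hB.block
    hB.pos)
  rw [map_mul, map_add, map_mul, map_pow, expand_aeval, ← Wt_eq, ← Wt_eq, ← Wt_eq] at h
  have h2 : (aeval t) (2 : ℚ[X]) = 2 := map_ofNat _ 2
  have h3 : (aeval t) (3 : ℚ[X]) = 3 := map_ofNat _ 3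
  rwa [h2, h3] at h

end

/-- the recursion for direct products -/
theorem Wt_prod {p : ℕ} [hp : Fact p.Prime] {O : ValuationSubring ℂ} {G G' : Type} [Group G]
    [Fintype G] [Group G'] [Fintype G'] {B : Set (G → ℂ)} {B' : Set (G' → ℂ)}
    (hB : IsBlock O B) (hB' : IsBlock O B') (t : ℂ) :
    Wt p O t (bxS B B') = Wt p O t B * Wt p O t B' := by
  rw [Wt_eq, blkP_prod hB hB', map_mul, ← Wt_eq, ← Wt_eq]

end Pool.Agent.N22.DD
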